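import Pool.Agent.MP_47bb2a_mp.H97.Defs

/-! Domination after taking a power. -/

open scoped ComplexOrder
open MeasureTheory

namespace Pool.Agent.MP_47bb2a_mp.H74

open H97

/-- `σ ^ s ≤ τ ^ s` for `τ = ∫ w(ω) ω^{⊗ n} dμ(ω)`, the integral being taken entrywise,
convergent and positive semidefinite. -/
def PowDominated {ι : Type*} [Fintype ι] [DecidableEq ι] {n : ℕ} (μ : Measure (States ι))
    (w : States ι → ℝ) (s : ℝ) (σ : Matrix (Fin n → ι) (Fin n → ι) ℂ) : Prop :=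
  (∀ x y, Integrable (fun ω : States ι => (w ω : ℂ) * tp n ω.1 x y) μ) ∧
    (Matrix.of fun x y => ∫ ω : States ι, (w ω : ℂ) * tp n ω.1 x y ∂μ).PosSemidef ∧
    (cfc (fun t : ℝ => t ^ s) (Matrix.of fun x y => ∫ ω : States ι, (w ω : ℂ) * tp n ω.1 x y ∂μ) -
      cfc (fun t : ℝ => t ^ s) σ).PosSemidef

end Pool.Agent.MP_47bb2a_mp.H74
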