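import Pool.Agent.MP_47bb2a_mp.H74.Filter

/-! An operator with exponentially small overlap with the product state still sees the
regularised entanglement. -/

open scoped ComplexOrder MatrixOrder
open Matrix Real Filter

namespace Pool.Agent.MP_47bb2a_mp.H74

open H97 H20

variable {A B : Type} [Fintype A] [DecidableEq A] [Fintype B] [DecidableEq B] [Nonempty A]
  [Nonempty B] {n : ℕ}

theorem blur {δ : ℝ} (h0 : 0 ≤ δ) (h1 : δ ≤ 1) {σ : Matrix (Fin n → A × B) (Fin n → A × B) ℂ}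
    (hσ : σ ∈ Sep A B n) : ∃ σ' ∈ Sep A B n, (∀ u, δ • H42.T u σ' ≤ σ') ∧
      (2⁻¹ * (Fintype.card (A × B) : ℝ)⁻¹ ^ n) • 1 ≤ σ' ∧
      ∀ (Z : Matrix (Fin n → A × B) (Fin n → A × B) ℂ) (c : ℝ), 0 ≤ c → Z ≤ c • σ →
        dep δ (List.finRange n) Z ≤ (2 * c) • σ' := by
  have m1 := tp_sep (n := n) (mixed_sep (A := A) (B := B))
  have m2 := convex_convexHull ℝ _ hσ m1 (a := 2⁻¹) (b := 2⁻¹) (by norm_num) (by norm_num)
    (by norm_num)
  have st := sep_state m2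
  have mono : ∀ X Y : Matrix (Fin n → A × B) (Fin n → A × B) ℂ, X ≤ Y →
      dep δ (List.finRange n) X ≤ dep δ (List.finRange n) Y := fun X Y h => by
    rw [← add_sub_cancel X Y, dep_add]
    exact le_add_of_nonneg_right (dep_nn h0 h1 _ (sub_nonneg.2 h))
  have s := (SC.dep (Or.inr ⟨1, one_pos, _, m2, (one_smul _ _).symm⟩) h0 h1
    (List.finRange n)).sep (by rw [dep_trace, st.2]; simp)
  rw [dep_trace, st.2, Complex.one_re, inv_one, one_smul] at s
  refine ⟨_, s, fun u => dep_T h0 h1 (List.mem_finRange u) st.1.nonneg, ?_, fun Z c hc h => ?_⟩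
  · rw [← dep_one (δ := δ) (List.finRange n), ← dep_smul]
    refine mono _ _ ?_
    rw [tp_rsmul, tp_one, smul_smul]
    exact le_add_of_nonneg_left (H42.smul_nn (sep_state hσ).1.nonneg (by norm_num))
  · rw [← dep_smul]
    refine mono _ _ (h.trans ?_)
    rw [smul_add, smul_smul, show 2 * c * 2⁻¹ = c by ring]
    exact le_add_of_nonneg_right
      (H42.smul_nn (H42.smul_nn (sep_state m1).1.nonneg (by norm_num)) (by positivity))

variable (A B) in
theorem expo {Δ : ℝ} (hΔ : 0 < Δ) : ∃ c : ℝ, 0 < c ∧ ∀ᶠ n : ℕ in atTop,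
    ∀ R : Matrix (A × B) (A × B) ℂ, Rᴴ = R → (R * R).trace = 1 →
      ∃ ω, IsState ω ∧ ω.PosDef ∧ R * R ≤ rexp Δ • ω ∧ ∀ σ ∈ Sep A B n,
        ∀ (V : Matrix (Fin n → A × B) (Fin n → A × B) ℂ) (l o : ℝ), Symm V →
          (V * Vᴴ).trace.re ≤ 1 → 0 < l → rexp (-(c * n)) ≤ o → o ≤ tr (tp n R) V →
          V * Vᴴ ≤ (((n : ℝ) + 1) ^ Fintype.card (A × B) / l) • σ →
          Ok (tp n ω) (-log l + n * Δ) := by
  obtain ⟨D, hD⟩ : ∃ D : ℝ, D = Fintype.card (A × B) := ⟨_, rfl⟩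
  have D1 : 1 ≤ D := by rw [hD]; exact_mod_cast Fintype.card_pos
  obtain ⟨δ, δ0, δ1, δ2⟩ : ∃ δ : ℝ, 0 < δ ∧ δ ≤ 1 / 2 ∧ δ ≤ Δ / 32 :=
    ⟨min (1 / 2) (Δ / 32), by positivity, min_le_left _ _, min_le_right _ _⟩
  have l1 : 0 ≤ log (D ^ 2) := log_nonneg (one_le_pow₀ D1)
  have l2 : 0 ≤ log (2 + D ^ 2) := log_nonneg (by nlinarith)
  have l3 : 0 ≤ -log δ := neg_nonneg.2 (log_nonpos δ0.le (by linarith))
  have l4 : 0 ≤ log D := log_nonneg D1
  obtain ⟨C, hC⟩ : ∃ C, C = log (D ^ 2) + log (2 + D ^ 2) + 4 - log δ := ⟨_, rfl⟩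
  have C1 : 1 ≤ C := by linarith
  obtain ⟨u, u0, u1, u2⟩ : ∃ u : ℝ, 0 < u ∧ u ≤ 1 ∧ C * (5 + D ^ 2) * u ≤ Δ / 8 :=
    ⟨min 1 (Δ / 8 / (C * (5 + D ^ 2))), by positivity, min_le_left _ _,
      (le_div_iff₀' (by positivity)).1 (min_le_right _ _)⟩
  have y0 : 0 < u ^ 4 := by positivity
  have y1 : u ^ 4 ≤ u := pow_le_of_le_one u0.le u1 (by norm_num)
  obtain ⟨g, hg⟩ : ∃ g, g = δ / Fintype.card ((A × B) × A × B) * ((u ^ 4) ^ 2 / 2) := ⟨_, rfl⟩
  have g0 : 0 < g := by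
    have : (0 : ℝ) < Fintype.card ((A × B) × A × B) := H42.card_pos
    rw [hg]
    positivity
  have g1 : g ≤ 1 := by
    have : (1 : ℝ) ≤ Fintype.card ((A × B) × A × B) := by exact_mod_cast Fintype.card_pos
    have h1 : δ / Fintype.card ((A × B) × A × B) ≤ 1 := div_le_one_of_le₀ (by linarith) (by linarith)
    have h2 : (u ^ 4) ^ 2 ≤ 1 := pow_le_one₀ y0.le (y1.trans u1)
    rw [hg]
    exact mul_le_one₀ h1 (by positivity) (by linarith)
  obtain ⟨c, c0, c1, c2, c3⟩ : ∃ c : ℝ, 0 < c ∧ c ≤ u ^ 4 ∧ c ≤ g / 4 ∧ c ≤ Δ / 16 :=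
    ⟨min (u ^ 4) (min (g / 4) (Δ / 16)), by positivity, min_le_left _ _,
      (min_le_right _ _).trans (min_le_left _ _), (min_le_right _ _).trans (min_le_right _ _)⟩
  have μ0 : 0 < u ^ 4 / (2 + D ^ 2) := by positivity
  have μ1 : -log (u ^ 4 / (2 + D ^ 2)) ≤ log (2 + D ^ 2) + 4 / u := by
    have := log_le_sub_one_of_pos (inv_pos.2 u0)
    rw [log_inv] at this
    rw [log_div y0.ne' (by positivity), log_pow, div_eq_mul_inv]
    push_cast
    linarith
  have μ2 : 0 ≤ -log (u ^ 4 / (2 + D ^ 2)) :=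
    neg_nonneg.2 (log_nonpos μ0.le (div_le_one_of_le₀ (by nlinarith) (by positivity)))
  obtain ⟨M, hM⟩ : ∃ M, M = -log (u ^ 4 / (2 + D ^ 2)) + log D + 1 := ⟨_, rfl⟩
  have M0 : 0 < M := by linarith
  obtain ⟨b, b0, b1, b2⟩ : ∃ b : ℝ, 0 < b ∧ b ≤ 1 ∧ 44 * M * b ≤ Δ / 8 :=
    ⟨min 1 (Δ / 8 / (44 * M)), by positivity, min_le_left _ _,
      (le_div_iff₀' (by positivity)).1 (min_le_right _ _)⟩
  obtain ⟨J, hJ⟩ := filter (A × B) δ0 (by linarith) y0 (y1.trans u1) c0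
  rw [← hg, ← hD] at hJ
  refine ⟨c, c0, ?_⟩
  filter_upwards [hJ, eventually_ge_atTop 1,
    poly_le (Fintype.card (A × B)) (show 0 < Δ / 8 by positivity) 2,
    poly_le 0 (show 0 < g / 4 by positivity) (J / b ^ 2),
    tendsto_natCast_atTop_atTop.eventually_ge_atTop (C * log (J + 6) / u ^ 3 / (Δ / 8))]
    with n hn n1 p1 p2 p3 R R1 R2
  have n1' : (1 : ℝ) ≤ n := by exact_mod_cast n1
  have Rp : (R * R).PosSemidef := by simpa only [R1] using posSemidef_self_mul_conjTranspose R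
  obtain ⟨r, hr⟩ : ∃ r, r = 1 + u ^ 4 + u ^ 4 * D ^ 2 := ⟨_, rfl⟩
  have r1 : 1 ≤ r := by rw [hr]; nlinarith [mul_pos y0 (show 0 < D ^ 2 by positivity)]
  have r0 : 0 < r := by linarith
  have r2 : r ≤ rexp (u ^ 4 * (1 + D ^ 2)) := by
    have := add_one_le_exp (u ^ 4 * (1 + D ^ 2))
    linarith
  have Npd := PosDef.posSemidef_add (psd_rsmul Rp (show 0 ≤ 1 + u ^ 4 by positivity))
    (PosDef.one.smul (show 0 < u ^ 4 * D by positivity))
  have ωpd := Npd.smul (inv_pos.2 r0)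
  have ωst : IsState (r⁻¹ • ((1 + u ^ 4) • (R * R) + (u ^ 4 * D) • 1)) := ⟨ωpd.posSemidef, by
    rw [trace_smul, trace_add, trace_smul, trace_smul, R2, trace_one, ← Complex.ofReal_natCast,
      ← hD]
    simp only [Complex.real_smul, mul_one, ← Complex.ofReal_mul, ← Complex.ofReal_add,
      Complex.ofReal_eq_one]
    rw [inv_mul_eq_one₀ r0.ne', hr]
    ring⟩
  refine ⟨_, ωst, ωpd, ?_, fun σ hσ V l o V1 V2 l0 o1 o2 V3 => ?_⟩
  · have : r ≤ rexp Δ := r2.trans (exp_le_exp.2 (by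
      nlinarith [mul_le_mul_of_nonneg_right y1 (show 0 ≤ 1 + D ^ 2 by positivity),
        mul_le_mul_of_nonneg_right C1 (show 0 ≤ (5 + D ^ 2) * u by positivity)]))
    refine le_trans ?_ (H42.le_smul ωst.1.nonneg this)
    rw [smul_inv_smul₀ r0.ne', add_smul, one_smul, add_assoc]
    exact le_add_of_nonneg_right (add_nonneg (H42.smul_nn Rp.nonneg y0.le)
      (H42.smul_nn H42.one_nn (by positivity)))
  have o0 := (exp_pos _).trans_le o1
  have o3 : (o ^ 2)⁻¹ ≤ rexp (2 * c * n) := by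
    rw [inv_le_comm₀ (pow_pos o0 2) (exp_pos _), ← Real.exp_neg]
    refine le_trans (le_of_eq ?_) (pow_le_pow_left₀ (exp_pos _).le o1 2)
    rw [← exp_nat_mul]
    congr 1
    push_cast
    ring
  obtain ⟨X, Y, x1, x2, x3, x4⟩ := hn R V o R1 R2 V1 V2 o0 o2
  obtain ⟨σ', s1, s2, s3, s4⟩ := blur δ0.le (by linarith) hσ
  rw [← hD] at s3
  have m0 : 0 < 2⁻¹ * D⁻¹ ^ n := by positivity
  have σpd := H42.pd_of_le (PosDef.one.smul m0) s3
  refine ⟨σ', s1, σpd, (step ωst (a := (J + 1) * rexp (n * (u ^ 4 * (4 + D ^ 2))))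
    (c := rexp (-log l + n * (3 / 8 * Δ))) (M := n * M) (Λ := C / u) (r := u ^ 2) μ0 ?_
    (sep_state s1) m0 s3 δ0 s2 x1 (exp_pos _) ?_ (by positivity) ?_ b0 b1 ?_ (by nlinarith) ?_
    (by positivity) (by positivity) ?_ ?_ (by positivity)).trans ?_⟩
  · rw [smul_add, smul_smul r⁻¹ (u ^ 4 * D)]
    refine le_add_of_nonneg_of_le (H42.smul_nn (H42.smul_nn Rp.nonneg (by positivity))
      (by positivity)) (H42.le_smul H42.one_nn ?_)
    rw [inv_mul_eq_div]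
    refine div_le_div₀ (by positivity) (by nlinarith) r0 ?_
    nlinarith [mul_le_mul_of_nonneg_right (y1.trans u1) (sq_nonneg D)]
  · have q0 : 0 < (1 + δ) / (1 - δ) := div_pos (by linarith) (by linarith)
    refine x2.trans ((H42.smul_le (s4 _ _ (by positivity) V3) (by positivity)).trans ?_)
    rw [smul_smul]
    refine H42.le_smul σpd.posSemidef.nonneg ?_
    have q1 : (1 + δ) / (1 - δ) ≤ rexp (Δ / 8) := by
      refine le_trans ?_ (add_one_le_exp _)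
      rw [div_le_iff₀ (by linarith)]
      nlinarith
    calc _ = ((1 + δ) / (1 - δ)) ^ n * (o ^ 2)⁻¹ * (2 * ((n : ℝ) + 1) ^ Fintype.card (A × B)) *
          l⁻¹ := by ring
      _ ≤ rexp (Δ / 8) ^ n * rexp (2 * c * n) * rexp (Δ / 8 * n) * l⁻¹ := by gcongr
      _ ≤ _ := by
          rw [← exp_nat_mul, ← exp_log (inv_pos.2 l0), log_inv, ← exp_add, ← exp_add, ← exp_add,
            exp_le_exp]
          nlinarith
  · refine x3.trans ?_
    rw [← smul_inv_smul₀ r0.ne' ((1 + u ^ 4) • (R * R) + (u ^ 4 * D) • 1), tp_rsmul r, smul_smul,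
      inv_smul_smul₀ r0.ne']
    refine H42.le_smul (tp_psd ωst.1).nonneg ?_
    calc _ = (J + 1) * (rexp (n * c) * (o ^ 2)⁻¹ * r ^ n) := by ring
      _ ≤ (J + 1) * (rexp (n * c) * rexp (2 * c * n) * rexp (u ^ 4 * (1 + D ^ 2)) ^ n) := by gcongr
      _ ≤ _ := by
          rw [← exp_nat_mul, ← exp_add, ← exp_add]
          gcongr
          nlinarith
  · refine x4.trans ?_
    rw [pow_zero, mul_one, div_le_iff₀ (by positivity)] at p2
    have q1 : 1 - g ≤ rexp (-g) := one_sub_le_exp_neg g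
    have q0 : 0 ≤ 1 - g := by linarith
    calc _ = J * (rexp (n * c) * (1 - g) ^ n * (o ^ 2)⁻¹) := by ring
      _ ≤ rexp (g / 4 * n) * b ^ 2 * (rexp (n * c) * rexp (-g) ^ n * rexp (2 * c * n)) := by gcongr
      _ = b ^ 2 * rexp (g / 4 * n + n * c + n * -g + 2 * c * n) := by
          rw [← exp_nat_mul, exp_add, exp_add, exp_add]
          ring
      _ ≤ b ^ 2 * 1 := by
          gcongr
          rw [exp_le_one_iff]
          nlinarith
      _ = _ := mul_one _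
  · have := log_le_sub_one_of_pos (two_pos (α := ℝ))
    rw [log_mul (by norm_num) (by positivity), log_pow, log_inv, log_inv]
    nlinarith
  · rw [← hD, le_div_iff₀ u0]
    have := mul_le_mul_of_nonneg_right μ1 u0.le
    rw [add_mul, div_mul_cancel₀ _ u0.ne'] at this
    nlinarith
  · rw [le_div_iff₀ u0]
    nlinarith
  · have q1 : log ((J + 1) * rexp (n * (u ^ 4 * (4 + D ^ 2))) + 5) ≤
        log (J + 6) + n * (u ^ 4 * (4 + D ^ 2)) := by
      have := one_le_exp (show 0 ≤ n * (u ^ 4 * (4 + D ^ 2)) by positivity)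
      rw [← log_exp (n * _), ← log_mul (by positivity) (by positivity), log_exp]
      exact log_le_log (by positivity) (by linarith)
    have q2 : C / u * (n * u ^ 2 + (log (J + 6) + n * (u ^ 4 * (4 + D ^ 2))) / u ^ 2) =
        n * (C * (5 + D ^ 2) * u) + C * log (J + 6) / u ^ 3 := by
      field_simp
      ring
    have q3 : C / u * (n * u ^ 2 + log ((J + 1) * rexp (n * (u ^ 4 * (4 + D ^ 2))) + 5) / u ^ 2) ≤
        C / u * (n * u ^ 2 + (log (J + 6) + n * (u ^ 4 * (4 + D ^ 2))) / u ^ 2) := by gcongr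
    rw [div_le_iff₀ (by positivity)] at p3
    rw [log_exp]
    nlinarith [mul_le_mul_of_nonneg_left u2 (n.cast_nonneg (α := ℝ)),
      mul_le_mul_of_nonneg_left b2 (n.cast_nonneg (α := ℝ))]

end Pool.Agent.MP_47bb2a_mp.H74
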