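import Pool.Agent.MP_47bb2a_mp.H74.Step

/-! A soft filter on the purification of a product state. -/

open scoped ComplexOrder MatrixOrder Kronecker
open Matrix Real Filter

namespace Pool.Agent.MP_47bb2a_mp.H74

open H97 H20

variable {ι κ : Type*} [Fintype ι] [DecidableEq ι] [Fintype κ] [DecidableEq κ] {n : ℕ}

omit [DecidableEq ι] in
theorem trX_cut (Y : Matrix (Fin n → ι) (Fin n → ι) ℂ)
    (Z : Matrix (Fin n → ι × κ) (Fin n → ι × κ) ℂ) :
    trX (cut Y 1 * Z) = Y * trX Z ∧ trX (Z * cut Y 1) = trX Z * Y := by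
  have h : ∀ (Y : Matrix (Fin n → ι) (Fin n → ι) ℂ) (Z : Matrix (Fin n → ι × κ) (Fin n → ι × κ) ℂ),
      trX (cut Y 1 * Z) = Y * trX Z := fun Y Z => by
    simp only [cut_blk, trX, sub_blk, Finset.mul_sum]
  have c : ∀ Z : Matrix (Fin n → ι × κ) (Fin n → ι × κ) ℂ, trX Zᴴ = (trX Z)ᴴ := fun Z => by
    simp only [trX, conjTranspose_sum, conjTranspose_submatrix]
  refine ⟨h Y Z, conjTranspose_injective ?_⟩
  rw [← c, conjTranspose_mul, cut_ct, conjTranspose_one, h, c, conjTranspose_mul]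

theorem trX_T [Nonempty ι] [Nonempty κ] (u : Fin n)
    (Z : Matrix (Fin n → ι × κ) (Fin n → ι × κ) ℂ) : trX (H42.T u Z) = H42.T u (trX Z) := by
  have hu := Finset.notMem_erase u Finset.univ
  have al : ∀ v, v ∈ insert u (Finset.univ.erase u) := fun v => by
    rw [Finset.insert_erase (Finset.mem_univ u)]
    exact Finset.mem_univ v
  rw [← H42.E_ins hu fun v hv => absurd (al v) hv, ← H42.E_ins hu fun v hv => absurd (al v) hv]
  refine (H42.E_unique (fun v hv a => ?_) fun Y hY => ?_).symm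
  · have := (H42.alg_E _ Z v hv (a ⊗ₖ 1)).eq
    rw [emb_kron, map_one] at this
    rw [Commute, SemiconjBy, ← (trX_cut _ _).1, ← (trX_cut _ _).2, this]
  · rw [← (trX_cut _ _).1, ← (trX_cut _ _).1, trX_trace, trX_trace,
      ← H42.E_mul fun v hv => cut_comm (hY v hv), H42.E_trace]

theorem trX_dep [Nonempty ι] [Nonempty κ] (δ : ℝ) (l : List (Fin n))
    (Z : Matrix (Fin n → ι × κ) (Fin n → ι × κ) ℂ) : trX (dep δ l Z) = dep δ l (trX Z) := by
  induction l with
  | nil => rfl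
  | cons u l ih => rw [dep, dep, trX_add, trX_smul, trX_smul, trX_T, ih]

omit [Fintype ι] [DecidableEq ι] [DecidableEq κ] in
theorem trX_le {S T : Matrix (Fin n → ι × κ) (Fin n → ι × κ) ℂ} (h : S ≤ T) : trX S ≤ trX T := by
  have := trX_psd (le_iff.1 h)
  rwa [trX_sub] at this

/-- A vector on the doubled system as a matrix. -/
def mt (v : (Fin n → ι × κ) → ℂ) : Matrix (Fin n → ι) (Fin n → κ) ℂ := of fun u s => v (ins s u)

omit [Fintype ι] [DecidableEq ι] [DecidableEq κ] in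
theorem trX_vv (v : (Fin n → ι × κ) → ℂ) : trX (vecMulVec v (star v)) = mt v * (mt v)ᴴ := by
  ext x y
  simp [trX, mt, Matrix.sum_apply, mul_apply, vecMulVec_apply]

omit [Fintype ι] [DecidableEq ι] [DecidableEq κ] in
theorem trX_tp (M : Matrix (ι × κ) (ι × κ) ℂ) :
    trX (tp n M) = tp n (of fun a b => ∑ x, M (a, x) (b, x)) := by
  ext x y
  simp only [trX, tp, ins, Matrix.sum_apply, submatrix_apply, of_apply, Fintype.prod_sum]

theorem vv_le {A : Matrix ι ι ℂ} (h : A.PosSemidef) {u : ι → ℂ} (hu : q A u ≤ 1) :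
    vecMulVec (A *ᵥ u) (star (A *ᵥ u)) ≤ A := by
  obtain ⟨C, rfl⟩ := exists_ct h
  have h1 := state_le_one (posSemidef_vecMulVec_self_star (C *ᵥ u)) (c := 1)
    (by rwa [trace_vv, ← q_ct_mul])
  have h2 := H42.conj_le h1 Cᴴ
  rwa [conj_vv, mulVec_mulVec, one_smul, Matrix.mul_one, conjTranspose_conjTranspose] at h2

theorem decomp {A B : Matrix ι ι ℂ} (hA : A.PosDef) (hB : B.PosSemidef) {w : ι → ℂ}
    (h : vecMulVec w (star w) ≤ A + B) :
    ∃ a b, w = a + b ∧ vecMulVec a (star a) ≤ A ∧ nsq b ≤ B.trace.re := by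
  have hS := hA.add_posSemidef hB
  obtain ⟨u, rfl⟩ := (mulVec_surjective_iff_isUnit.2 hS.isUnit) w
  have h1 := q_le (le_iff.1 h) u
  have h2 : q (vecMulVec ((A + B) *ᵥ u) (star ((A + B) *ᵥ u))) u = q (A + B) u ^ 2 := by
    have e : star u ⬝ᵥ (A + B) *ᵥ u = q (A + B) u := Complex.ext rfl
      (Complex.nonneg_iff.1 (hS.posSemidef.dotProduct_mulVec_nonneg u)).2.symm
    rw [q, vecMulVec_mulVec, star_dotProduct ((A + B) *ᵥ u), dotProduct_smul, e]
    simp [sq]
  have h3 : q (A + B) u ≤ 1 := by nlinarith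
  have h4 := q_nonneg hA.posSemidef u
  have h5 := q_nonneg hB u
  rw [q_add] at h3
  refine ⟨_, _, add_mulVec A B u, vv_le hA.posSemidef (by linarith), ?_⟩
  rw [← trace_vv]
  exact H42.tr_le (vv_le hB (by linarith))

theorem finetti (κ : Type*) [Fintype κ] [DecidableEq κ] [Nonempty κ] {η : ℝ} (hη : 0 < η) :
    ∃ (J : Finset ℕ) (τ : ℕ → Matrix κ κ ℂ), (∀ j, (τ j).PosSemidef ∧ (τ j).trace.re ≤ 1) ∧
      ∀ᶠ n : ℕ in atTop, ∀ σ : Matrix (Fin n → κ) (Fin n → κ) ℂ, σ.PosSemidef → Symm σ →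
        σ.trace.re ≤ 1 → σ ≤ rexp (n * η) • ∑ j ∈ J, tp n (τ j) := by
  have hb : Base {M : Matrix κ κ ℂ | M.PosSemidef ∧ M.trace.re ≤ 1} (Fintype.card κ : ℝ)⁻¹ :=
    ⟨convex_psd.inter (show Convex ℝ {M : Matrix κ κ ℂ | M.trace.re ≤ 1} by
      simpa using convex_tr (1 : Matrix κ κ ℂ)), fun _ h => h.1, fun _ h => h.2,
      inv_pos.2 H42.card_pos, one_state.1, by rw [one_state.2]; simp⟩
  obtain ⟨ω, t, ht, hnet⟩ := hb.net
  obtain ⟨N, hN⟩ := core hb (half_pos hη)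
  obtain ⟨J, hJ⟩ := hnet (1 - rexp (-(η / 2))) (by simpa using hη)
    (by linarith [exp_pos (-(η / 2))])
  refine ⟨J, _, fun j => (ht j).2, eventually_atTop.2 ⟨N, fun n hn σ h1 h2 h3 => ?_⟩⟩
  have hS : (∑ j ∈ J, tp n (t j • (ω j).1)).PosSemidef :=
    posSemidef_sum _ fun j _ => tp_psd (ht j).2.1
  refine psd_of_q ((herm_rsmul hS.1 _).sub h1.1) fun v => ?_
  rw [q_sub, q_rsmul, sub_nonneg]
  refine (hN n hn σ h1 h2 (fun G hG => ?_) v
    (rexp (n * (η / 2)) * q (∑ j ∈ J, tp n (t j • (ω j).1)) v) fun τ hτ => ?_).trans_eq ?_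
  · have g1 : (1 - G).PosSemidef := psd_of_q (isHermitian_one.sub hG.1.1) fun x => by
      rw [q_sub, q_one, sub_nonneg]
      rcases (nsq_nonneg x).eq_or_lt with h | h
      · rw [nsq_zero x h]
        simp [q, nsq]
      · have := hG.2 _ ⟨(pure_state x h).1, by rw [(pure_state x h).2]; simp⟩
        rwa [Matrix.mul_smul, trace_smul, Complex.smul_re, tr_vecMulVec, smul_eq_mul,
          inv_mul_le_iff₀ h, mul_one] at this
    have := le_tr h1 (tp_mono (n := n) hG.1 g1)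
    rw [tp_one, tr_comm 1, tr_one] at this
    exact this.trans h3
  · obtain ⟨j, hj, h4⟩ := hJ τ hτ
    rw [sub_sub_cancel] at h4
    have a1 := q_le (tp_mono (n := n) (psd_rsmul hτ.1 (exp_pos _).le) h4) v
    have a2 := q_le (le_iff.1 (Finset.single_le_sum (f := fun j => tp n (t j • (ω j).1))
      (fun j _ => (tp_psd (ht j).2.1).nonneg) hj)) v
    rw [tp_rsmul, q_rsmul, ← exp_nat_mul, mul_neg, Real.exp_neg, inv_mul_le_iff₀ (exp_pos _)] at a1
    exact a1.trans (mul_le_mul_of_nonneg_left a2 (exp_pos _).le)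
  · rw [← mul_assoc, ← exp_add]
    congr 2
    ring

theorem site {ψ : κ → ℂ} (hψ : nsq ψ = 1) {θ y : ℝ} (θ0 : 0 < θ) (θ1 : θ ≤ 1) (y0 : 0 < y)
    (y1 : y ≤ 1) : ∃ k : Matrix κ κ ℂ, kᴴ = k ∧ k *ᵥ ψ = ψ ∧ (k - 1) * (k - 1)ᴴ ≤ θ ^ 2 • 1 ∧
      ∀ τ : Matrix κ κ ℂ, τ.PosSemidef → τ.trace.re ≤ 1 →
        k * τ * kᴴ ≤ (1 + y) • vecMulVec ψ (star ψ) + y • 1 ∨
          (k * τ * kᴴ).trace.re ≤ 1 - θ * (y ^ 2 / 2) := by
  set P := vecMulVec ψ (star ψ) with hP
  have Pψ : P *ᵥ ψ = ψ := by rw [hP, vecMulVec_mulVec, dot_self, hψ]; simp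
  have Ph : Pᴴ = P := (posSemidef_vecMulVec_self_star ψ).1
  have PP : P * P = P := by
    conv_lhs => rw [hP, vecMulVec_mul_vecMulVec, dot_self, hψ]
    simp [hP]
  have P0 : 0 ≤ P := (posSemidef_vecMulVec_self_star ψ).nonneg
  have Qh : (1 - P)ᴴ = 1 - P := by rw [conjTranspose_sub, Ph, conjTranspose_one]
  have QQ : (1 - P) * (1 - P) = 1 - P := by simp [mul_sub, sub_mul, PP]
  have Q0 : (1 - P).PosSemidef := (proj_psd Ph PP).2
  refine ⟨P + (1 - θ) • (1 - P), by simp [Ph], ?_, ?_, fun τ h h1 => ?_⟩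
  · simp [add_mulVec, smul_mulVec, sub_mulVec, Pψ]
  · have : P + (1 - θ) • (1 - P) - 1 = -θ • (1 - P) := by module
    rw [this, conjTranspose_smul, star_trivial, Qh, Matrix.smul_mul, Matrix.mul_smul, QQ,
      smul_smul, neg_mul_neg, ← sq]
    exact H42.smul_le (sub_le_self _ P0) (sq_nonneg _)
  have e1 : ((1 - P) * τ * (1 - P)ᴴ).trace.re = tr τ (1 - P) := by
    rw [Qh, trace_mul_cycle, QQ, tr_comm, tr]
  have s1 : 0 ≤ (1 - θ) * (1 - θ) := mul_self_nonneg _
  have s2 : (1 - θ) * (1 - θ) ≤ 1 - θ := by nlinarith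
  rcases le_total (tr τ (1 - P)) (y ^ 2 / 2) with h2 | h2
  · refine Or.inl ((two_cs h.nonneg _ _ y0).trans (add_le_add (H42.smul_le ?_ (by linarith)) ?_))
    · have := H42.conj_le (state_le_one h h1) P
      rw [one_smul, Matrix.mul_one] at this
      exact this.trans_eq (by rw [Ph, PP])
    · have p := h.mul_mul_conjTranspose_same (1 - P)
      rw [conjTranspose_smul, star_trivial, Matrix.smul_mul, Matrix.smul_mul, Matrix.mul_smul,
        smul_smul, smul_smul]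
      refine (H42.smul_le (state_le_one p (e1.trans_le h2)) (by positivity)).trans ?_
      rw [smul_smul]
      refine H42.le_smul H42.one_nn ?_
      have : (1 + y⁻¹) * (y ^ 2 / 2) ≤ y := by
        have : (1 + y⁻¹) * (y ^ 2 / 2) = (y ^ 2 + y) / 2 := by field_simp
        nlinarith
      nlinarith [mul_nonneg (show 0 ≤ (1 + y⁻¹) * (y ^ 2 / 2) by positivity)
        (show 0 ≤ 1 - (1 - θ) * (1 - θ) by linarith)]
  · refine Or.inr ?_
    have : (P + (1 - θ) • (1 - P))ᴴ * (P + (1 - θ) • (1 - P)) =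
        1 - (1 - (1 - θ) * (1 - θ)) • (1 - P) := by
      simp only [conjTranspose_add, conjTranspose_smul, star_trivial, Ph, Qh, add_mul, mul_add,
        Matrix.smul_mul, Matrix.mul_smul, mul_sub, sub_mul, PP, mul_one, one_mul]
      module
    rw [trace_mul_cycle, this, ← tr, tr_comm, tr_sub, tr_smul, tr_one]
    have := tr_nonneg h Q0
    nlinarith [mul_le_mul_of_nonneg_left h2 θ0.le]

theorem filter (ι : Type*) [Fintype ι] [DecidableEq ι] [Nonempty ι] {δ y η : ℝ} (h0 : 0 < δ)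
    (h1 : δ < 1) (y0 : 0 < y) (y1 : y ≤ 1) (hη : 0 < η) : ∃ J : ℕ, ∀ᶠ n : ℕ in atTop,
    ∀ (R : Matrix ι ι ℂ) (V : Matrix (Fin n → ι) (Fin n → ι) ℂ) (o : ℝ), Rᴴ = R →
      (R * R).trace = 1 → Symm V → (V * Vᴴ).trace.re ≤ 1 → 0 < o → o ≤ tr (tp n R) V →
      ∃ X Y : Matrix (Fin n → ι) (Fin n → ι) ℂ, ((X + Y) * (X + Y)ᴴ).trace = 1 ∧
        (X + Y) * (X + Y)ᴴ ≤
          (((1 + δ) / (1 - δ)) ^ n / o ^ 2) • dep δ (List.finRange n) (V * Vᴴ) ∧
        X * Xᴴ ≤ (rexp (n * η) * (J + 1) / o ^ 2) •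
          tp n ((1 + y) • (R * R) + (y * Fintype.card ι) • 1) ∧
        (Y * Yᴴ).trace.re ≤ rexp (n * η) * J *
          (1 - δ / Fintype.card (ι × ι) * (y ^ 2 / 2)) ^ n / o ^ 2 := by
  classical
  obtain ⟨J, τ, hτ, H⟩ := finetti (ι × ι) hη
  refine ⟨J.card, H.mono fun n hn R V o R1 R2 V1 V2 o0 o1 => ?_⟩
  have d1 : (1 : ℝ) ≤ Fintype.card (ι × ι) := by exact_mod_cast Fintype.card_pos
  set ψ : ι × ι → ℂ := fun z => R z.1 z.2 with hψ
  have ψ1 : nsq ψ = 1 := by
    have := nsq_uncurry R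
    rw [R1, R2] at this
    exact_mod_cast this.symm
  obtain ⟨k, k1, k2, k3, k4⟩ := site ψ1 (θ := δ / Fintype.card (ι × ι)) (by positivity)
    (div_le_one_of_le₀ (by linarith) (by linarith)) y0 y1
  set v : (Fin n → ι × ι) → ℂ := fun z => V (fun i => (z i).1) fun i => (z i).2 with hv
  have mv : mt v = V := rfl
  have vp := posSemidef_vecMulVec_self_star v
  have a1 := hn _ vp (fun g x x' => by
    simp only [vecMulVec_apply, hv, Pi.star_apply]
    exact congrArg₂ (fun a b : ℂ => a * star b) (V1 g (fun i => (x i).1) fun i => (x i).2)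
      (V1 g (fun i => (x' i).1) fun i => (x' i).2))
    (by rwa [← trX_trace, trX_vv, mv])
  have a2 := H42.conj_le a1 (tp n k)
  have a3 := tens_conj_le h0 h1 (k := fun _ : Fin n => k) (fun _ => k3) vp.nonneg
    (List.nodup_finRange n)
  simp only [List.toFinset_finRange, Finset.mem_univ, if_true, List.length_finRange] at a3
  change tp n k * _ * (tp n k)ᴴ ≤ _ at a3
  rw [conj_vv] at a2 a3
  have a4 : o ^ 2 ≤ nsq (tp n k *ᵥ v) := by
    set φ : (Fin n → ι × ι) → ℂ := fun z => ∏ i, ψ (z i) with hφ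
    have e1 : (tp n k)ᴴ *ᵥ φ = φ := by
      funext z
      rw [tp_ct, k1]
      simp only [mulVec, dotProduct, tp, of_apply, hφ, ← Finset.prod_mul_distrib]
      rw [← Fintype.prod_sum fun i a => k (z i) a * ψ a]
      exact Finset.prod_congr rfl fun i _ => congrFun k2 (z i)
    have e2 : nsq φ = 1 := by
      simp only [nsq, hφ, norm_prod, ← Finset.prod_pow]
      rw [← Fintype.prod_sum fun (_ : Fin n) a => ‖ψ a‖ ^ 2]
      exact Finset.prod_eq_one fun _ _ => ψ1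
    have e3 : star φ ⬝ᵥ tp n k *ᵥ v = (tp n R * V).trace := by
      rw [dotProduct_mulVec, ← conjTranspose_conjTranspose (tp n k), ← star_mulVec, e1,
        ← R1, ← tp_ct, trace_mul_comm]
      simp only [trace, diag_apply, mul_apply, conjTranspose_apply, ← sum_pair, dotProduct]
      exact Finset.sum_congr rfl fun z _ => mul_comm _ _
    have e4 := cs φ (tp n k *ᵥ v)
    rw [e2, one_mul, e3] at e4
    exact (pow_le_pow_left₀ o0.le (o1.trans (Complex.re_le_norm _)) 2).trans e4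
  generalize tp n k *ᵥ v = w at a2 a3 a4
  have z0 : 0 < nsq w := (pow_pos o0 2).trans_le a4
  set N := (1 + y) • vecMulVec ψ (star ψ) + y • (1 : Matrix _ _ ℂ) with hN
  have Npd : N.PosDef := PosDef.posSemidef_add
    (psd_rsmul (posSemidef_vecMulVec_self_star ψ) (by linarith)) (PosDef.one.smul y0)
  have Np := tp_pd (n := n) Npd
  set F := J.filter fun j => ¬k * τ j * kᴴ ≤ N with hF
  have kp : ∀ j, (k * τ j * kᴴ).PosSemidef := fun j => (hτ j).1.mul_mul_conjTranspose_same k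
  have Bp : (∑ j ∈ F, tp n (k * τ j * kᴴ)).PosSemidef :=
    posSemidef_sum _ fun j _ => tp_psd (kp j)
  have a5 : tp n k * (∑ j ∈ J, tp n (τ j)) * (tp n k)ᴴ ≤
      ((J.card : ℝ) + 1) • tp n N + ∑ j ∈ F, tp n (k * τ j * kᴴ) := by
    simp only [Finset.mul_sum, Finset.sum_mul, tp_ct, tp_mul]
    rw [← Finset.sum_filter_add_sum_filter_not J fun j => k * τ j * kᴴ ≤ N]
    refine add_le_add_left ((Finset.sum_le_card_nsmul _ _ (tp n N) fun j hj =>
      tp_mono (kp j) (Finset.mem_filter.1 hj).2).trans ?_) _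
    rw [← Nat.cast_smul_eq_nsmul ℝ]
    exact H42.le_smul Np.posSemidef.nonneg
      ((Nat.cast_le.2 (Finset.card_filter_le _ _)).trans (by linarith))
  have sq1 : ∀ x : (Fin n → ι × ι) → ℂ, vecMulVec ((√(nsq w))⁻¹ • x) (star ((√(nsq w))⁻¹ • x)) =
      (nsq w)⁻¹ • vecMulVec x (star x) := fun x => by
    rw [star_smul, smul_vecMulVec, vecMulVec_smul, smul_smul, star_trivial, ← mul_inv,
      mul_self_sqrt z0.le]
  have i0 := inv_pos.2 z0
  have i1 : (nsq w)⁻¹ ≤ (o ^ 2)⁻¹ := inv_anti₀ (pow_pos o0 2) a4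
  have e0 := exp_pos (n * η)
  rw [Matrix.mul_smul, Matrix.smul_mul] at a2
  have a6 := H42.smul_le (a2.trans (H42.smul_le a5 e0.le)) i0.le
  rw [← sq1, smul_add, smul_add] at a6
  obtain ⟨a, b, c1, c2, c3⟩ := decomp (((Np.smul (by positivity)).smul e0).smul i0)
    (psd_rsmul (psd_rsmul Bp e0.le) i0.le) a6
  have e5 : (mt a + mt b) * (mt a + mt b)ᴴ = (nsq w)⁻¹ • trX (vecMulVec w (star w)) := by
    rw [← trX_smul, ← sq1, c1, trX_vv]
    rfl
  refine ⟨mt a, mt b, ?_, ?_, ?_, ?_⟩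
  · rw [e5, trace_smul, trX_trace, trace_re (posSemidef_vecMulVec_self_star w), trace_vv,
      Complex.real_smul, ← Complex.ofReal_mul, inv_mul_cancel₀ z0.ne', Complex.ofReal_one]
  · have := H42.smul_le (trX_le a3) i0.le
    rw [trX_smul, trX_dep, trX_vv v, mv, smul_smul] at this
    rw [e5]
    refine this.trans (H42.le_smul (dep_nn h0.le h1.le _
      (posSemidef_self_mul_conjTranspose V).nonneg) ?_)
    have : 0 < (1 + δ) / (1 - δ) := div_pos (by linarith) (by linarith)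
    rw [div_eq_inv_mul _ (o ^ 2)]
    gcongr
  · have := trX_le c2
    have e : (of fun a b => ∑ x, N (a, x) (b, x)) =
        (1 + y) • (R * R) + (y * Fintype.card ι) • 1 := by
      conv_rhs => enter [1, 2, 2]; rw [← R1]
      ext a b
      by_cases h : a = b <;>
        simp [hN, hψ, h, vecMulVec_apply, mul_apply, one_apply, Finset.sum_add_distrib,
          Finset.mul_sum, mul_comm]
    rw [trX_vv, trX_smul, trX_smul, trX_smul, smul_smul, smul_smul] at this
    have p := trX_psd Np.posSemidef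
    rw [trX_tp, e] at this p
    refine this.trans (H42.le_smul p.nonneg ?_)
    rw [div_eq_inv_mul _ (o ^ 2), mul_assoc]
    gcongr
  · rw [← trX_vv, trX_trace, trace_vv]
    refine c3.trans ?_
    rw [trace_smul, trace_smul, Complex.smul_re, Complex.smul_re, smul_eq_mul, smul_eq_mul,
      div_eq_inv_mul _ (o ^ 2), mul_assoc (rexp _)]
    have t0 : 0 ≤ (∑ j ∈ F, tp n (k * τ j * kᴴ)).trace.re := H42.tr_nn Bp.nonneg
    gcongr
    rw [trace_sum, Complex.re_sum]
    have : ∀ j ∈ F, (tp n (k * τ j * kᴴ)).trace.re ≤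
        (1 - δ / Fintype.card (ι × ι) * (y ^ 2 / 2)) ^ n := fun j hj => by
      rw [tp_trace, trace_re (kp j), ← Complex.ofReal_pow, Complex.ofReal_re]
      exact pow_le_pow_left₀ (H42.tr_nn (kp j).nonneg)
        ((k4 _ (hτ j).1 (hτ j).2).resolve_left (Finset.mem_filter.1 hj).2) n
    refine (Finset.sum_le_card_nsmul _ _ _ this).trans ?_
    have : 0 ≤ 1 - δ / Fintype.card (ι × ι) * (y ^ 2 / 2) := by
      have : δ / Fintype.card (ι × ι) ≤ 1 := div_le_one_of_le₀ (by linarith) (by linarith)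
      nlinarith [mul_le_one₀ y1 y0.le y1, sq_nonneg y]
    rw [nsmul_eq_mul]
    gcongr
    exact Finset.filter_subset _ _

end Pool.Agent.MP_47bb2a_mp.H74
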