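import Pool.Agent.MP_47bb2a_mp.H74.Split

/-! A spectral projection of the relative modular operator. -/

open scoped ComplexOrder MatrixOrder
open Matrix Real

namespace Pool.Agent.MP_47bb2a_mp.H74

open H97 H20

variable {ι : Type*} [Fintype ι] [DecidableEq ι] {n : ℕ}

theorem scal {r y l L s : ℝ} (hr : 0 ≤ r) (hy : 0 ≤ y) (hl : 0 < l) (hL : 0 < L) (s0 : 0 < s)
    (s1 : s < 1) : y ^ s * r ^ (1 - s) ≤
      l ^ s * r + L ^ s * (r * if l * r ≤ y then 1 else 0) + L ^ (s - 1) * y := by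
  have a1 : 0 ≤ l ^ s * r := by positivity
  have a2 : 0 ≤ L ^ (s - 1) * y := by positivity
  have a3 : 0 ≤ L ^ s * (r * if l * r ≤ y then 1 else 0) := by split_ifs <;> positivity
  rcases hr.eq_or_lt with rfl | hr
  · rw [zero_rpow (by linarith)]
    linarith
  have e : ∀ c : ℝ, 0 ≤ c → y ≤ c * r → y ^ s * r ^ (1 - s) ≤ c ^ s * r := fun c hc h => by
    refine (mul_le_mul_of_nonneg_right (rpow_le_rpow hy h s0.le) (by positivity)).trans_eq ?_
    rw [mul_rpow hc hr.le, mul_assoc, ← rpow_add hr, add_sub_cancel, rpow_one]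
  by_cases h : l * r ≤ y
  · rcases le_total y (L * r) with h2 | h2
    · have := e L hL.le h2
      rw [if_pos h, mul_one]
      linarith
    · have y0 : 0 < y := (mul_pos hL hr).trans_le h2
      have : y ^ s * r ^ (1 - s) ≤ L ^ (s - 1) * y := by
        have h3 := rpow_le_rpow_of_nonpos (mul_pos hL hr) h2 (sub_nonpos.2 s1.le)
        rw [mul_rpow hL.le hr.le] at h3
        have h4 : y ^ s = y ^ (s - 1) * y := by rw [rpow_sub_one y0.ne', div_mul_cancel₀ _ y0.ne']
        have h5 : r ^ (s - 1) * r ^ (1 - s) = 1 := by rw [← rpow_add hr]; simp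
        calc _ = y ^ (s - 1) * (y * r ^ (1 - s)) := by rw [h4, mul_assoc]
          _ ≤ L ^ (s - 1) * r ^ (s - 1) * (y * r ^ (1 - s)) := by gcongr
          _ = L ^ (s - 1) * y * (r ^ (s - 1) * r ^ (1 - s)) := by ring
          _ = _ := by rw [h5, mul_one]
      linarith
  · have := e l hl.le (not_le.1 h).le
    linarith

theorem card_vals (p : ι → ℝ) :
    (Finset.univ.image fun x : Fin n → ι => ∏ i, p (x i)).card ≤ (n + 1) ^ Fintype.card ι := by
  refine (Finset.card_le_card (t := Finset.univ.image fun t : ι → Fin (n + 1) =>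
    ∏ a, p a ^ (t a : ℕ)) fun r hr => ?_).trans (Finset.card_image_le.trans (by simp))
  obtain ⟨x, -, rfl⟩ := Finset.mem_image.1 hr
  refine Finset.mem_image.2 ⟨fun a => ⟨(Finset.univ.filter fun i => x i = a).card,
    Nat.lt_succ_of_le ((Finset.card_filter_le _ _).trans (by simp))⟩, Finset.mem_univ _, ?_⟩
  rw [← Finset.prod_fiberwise' Finset.univ x p]
  simp only [Finset.prod_const]

theorem symm_of_comm {M : Matrix (Fin n → ι) (Fin n → ι) ℂ} (h : ∀ g, M * pm ι g = pm ι g * M) :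
    Symm M := fun g x y => by
  rw [← pm_mul_apply g M, ← h, mul_pm_apply]
  simp [Function.comp_assoc]

theorem symm_cfc {M : Matrix (Fin n → ι) (Fin n → ι) ℂ} (h : M.IsHermitian) (hs : Symm M)
    (f : ℝ → ℝ) : Symm (cfc f M) :=
  symm_of_comm fun g => cfc_intertwine h h (symm_comm hs g) f

theorem modular {U : Matrix ι ι ℂ} (hU : Uni U) {p : ι → ℝ} (p0 : ∀ i, 0 ≤ p i)
    (p1 : ∑ i, p i = 1) {σ : Matrix (Fin n → ι) (Fin n → ι) ℂ} (hσ : IsState σ) (hs : Symm σ)
    {l L s : ℝ} (hl : 0 < l) (hL : 0 < L) (s0 : 0 < s) (s1 : s < 1) :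
    ∃ (V : Matrix (Fin n → ι) (Fin n → ι) ℂ) (o : ℝ), Symm V ∧ (V * Vᴴ).trace.re = o ∧
      tr (tp n (sp U fun i => √(p i))) V = o ∧ o ≤ 1 ∧
      V * Vᴴ ≤ (((n : ℝ) + 1) ^ Fintype.card ι / l) • σ ∧
      tr (tp n (sp U fun i => p i ^ (1 - s))) (cfc (fun x : ℝ => x ^ s) σ) ≤
        l ^ s + L ^ s * o + L ^ (s - 1) := by
  classical
  obtain ⟨W, y, hW, y0, rfl⟩ := exists_sp_psd hσ.1
  have y1 : ∑ j, y j = 1 := by
    have := hσ.2
    rwa [sp_trace hW, Complex.ofReal_eq_one] at this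
  set r := fun x : Fin n → ι => ∏ i, p (x i) with hr
  have r0 : ∀ x, 0 ≤ r x := fun x => Finset.prod_nonneg fun _ _ => p0 _
  have r1 : ∑ x, r x = 1 := by
    rw [hr, ← Fintype.prod_sum fun (_ : Fin n) b => p b]
    simp only [p1, Finset.prod_const_one]
  have hT := card_vals (n := n) p
  rw [← hr] at hT
  set T := Finset.univ.image r
  have T0 : ∀ t ∈ T, 0 ≤ t := fun t ht => by
    obtain ⟨x, -, rfl⟩ := Finset.mem_image.1 ht
    exact r0 x
  have uU := hU.tp (n := n)
  set P := fun t : ℝ => sp W fun j => if l * t ≤ y j then 1 else 0 with hP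
  set E := fun t : ℝ => sp (tp n U) fun x => if r x = t then 1 else 0 with hE
  have PP : ∀ t, P t * P t = P t := fun t => by
    simp only [hP, sp_mul hW, mul_ite, mul_one, mul_zero, ← ite_and, and_self]
  have EE : ∀ t t', E t * E t' = if t = t' then E t else 0 := fun t t' => by
    simp only [hE, sp_mul uU]
    split_ifs with h
    · simp only [h, mul_ite, mul_one, mul_zero, ← ite_and, and_self]
    · rw [← zero_smul ℝ (1 : Matrix _ _ ℂ), ← sp_const uU]
      congr 1
      funext x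
      by_cases h1 : r x = t
      · simp [h1, h]
      · simp [h1]
  have Ph : ∀ t, (P t)ᴴ = P t := fun t => sp_herm _ _
  have Eh : ∀ t, (E t)ᴴ = E t := fun t => sp_herm _ _
  have VV : (∑ t ∈ T, √t • (P t * E t)) * (∑ t ∈ T, √t • (P t * E t))ᴴ =
      ∑ t ∈ T, t • (P t * E t * (P t)ᴴ) := by
    simp only [conjTranspose_sum, conjTranspose_smul, star_trivial, conjTranspose_mul, Ph, Eh,
      Finset.sum_mul_sum, Matrix.smul_mul, Matrix.mul_smul, smul_smul]
    refine Finset.sum_congr rfl fun t ht => ?_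
    simp only [Matrix.mul_assoc, ← Matrix.mul_assoc (E t), EE, ite_mul, Matrix.zero_mul, mul_ite,
      Matrix.mul_zero, smul_ite, smul_zero, Finset.sum_ite_eq, ht, if_true, mul_self_sqrt (T0 t ht)]
  have ho : ∑ t ∈ T, t * tr (E t) (P t) =
      ∑ j, ∑ x, (r x * if l * r x ≤ y j then 1 else 0) * ‖(Wᴴ * tp n U) j x‖ ^ 2 := by
    simp only [hE, hP, tr, tr_sp_sp, Finset.mul_sum]
    rw [Finset.sum_comm]
    refine Finset.sum_congr rfl fun j _ => ?_
    rw [Finset.sum_comm]
    refine Finset.sum_congr rfl fun x _ => ?_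
    rw [Finset.sum_eq_single (r x) (fun t _ ht => by simp [ht.symm])
      fun h => absurd (Finset.mem_image_of_mem r (Finset.mem_univ x)) h]
    simp
  have uW := hW.ct.mul uU
  have c1 : ∑ j, ∑ x, r x * ‖(Wᴴ * tp n U) j x‖ ^ 2 = 1 := by
    rw [Finset.sum_comm]
    simp only [← Finset.mul_sum, uW.sum_col, mul_one, r1]
  have c2 : ∑ j, ∑ x, y j * ‖(Wᴴ * tp n U) j x‖ ^ 2 = 1 := by
    simp only [← Finset.mul_sum, uW.sum_row, mul_one, y1]
  refine ⟨∑ t ∈ T, √t • (P t * E t), ∑ t ∈ T, t * tr (E t) (P t), symm_of_comm fun g => ?_,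
    ?_, ?_, ?_, ?_, ?_⟩
  · have h1 : ∀ t, P t * pm ι g = pm ι g * P t := fun t =>
      sp_intertwine hW hW (symm_comm hs g) fun z => if l * t ≤ z then 1 else 0
    have h2 : ∀ t, E t * pm ι g = pm ι g * E t := fun t => sp_comm (fun g x => by
      rw [show r (x ∘ g) = r x from Equiv.prod_comp g fun i => p (x i)]) g
    simp only [Finset.sum_mul, Finset.mul_sum, Matrix.smul_mul, Matrix.mul_smul, Matrix.mul_assoc,
      h2]
    simp only [← Matrix.mul_assoc, h1]
  · rw [VV, trace_sum, Complex.re_sum]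
    refine Finset.sum_congr rfl fun t _ => ?_
    rw [trace_smul, Complex.smul_re, Ph, trace_mul_cycle, PP, trace_mul_comm, tr, smul_eq_mul]
  · rw [tr_sum]
    refine Finset.sum_congr rfl fun t ht => ?_
    have : E t * tp n (sp U fun i => √(p i)) = √t • E t := by
      rw [tp_sp, hE, sp_mul uU, sp_smul]
      congr 1
      funext x
      split_ifs with h
      · rw [← h, one_mul, mul_one, hr, Real.sqrt_prod _ fun i _ => p0 _]
      · simp
    rw [tr_smul, tr, ← Matrix.mul_assoc, trace_mul_cycle, this, ← tr, smul_tr, ← mul_assoc,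
      mul_self_sqrt (T0 t ht)]
  · rw [ho]
    refine le_trans (Finset.sum_le_sum fun j _ => Finset.sum_le_sum fun x _ => ?_) c1.le
    have := r0 x
    split_ifs
    · rw [mul_one]
    · rw [mul_zero, zero_mul]
      positivity
  · rw [VV]
    refine (Finset.sum_le_card_nsmul _ _ (l⁻¹ • sp W y) fun t ht => ?_).trans ?_
    · have h1 : E t ≤ 1 := by
        rw [← one_smul ℝ (1 : Matrix _ _ ℂ), ← sp_const uU]
        exact sp_le _ fun x => by split_ifs <;> simp
      refine (H42.smul_le (H42.conj_le h1 (P t)) (T0 t ht)).trans ?_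
      rw [Matrix.mul_one, Ph, PP, hP, sp_smul, sp_smul]
      refine sp_le _ fun j => ?_
      split_ifs with h
      · rwa [mul_one, le_inv_mul_iff₀ hl]
      · have := y0 j
        rw [mul_zero]
        positivity
    · rw [← Nat.cast_smul_eq_nsmul ℝ, smul_smul]
      refine H42.le_smul hσ.1.nonneg ?_
      rw [div_eq_mul_inv]
      gcongr
      exact_mod_cast hT
  · rw [tp_sp, cfc_sp hW, tr, tr_sp_sp, ho]
    calc _ ≤ ∑ j, ∑ x, (l ^ s * r x + L ^ s * (r x * if l * r x ≤ y j then 1 else 0) +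
          L ^ (s - 1) * y j) * ‖(Wᴴ * tp n U) j x‖ ^ 2 := by
          refine Finset.sum_le_sum fun j _ => Finset.sum_le_sum fun x _ => ?_
          rw [finsetProd_rpow _ _ fun i _ => p0 _]
          exact mul_le_mul_of_nonneg_right (scal (r0 x) (y0 j) hl hL s0 s1) (sq_nonneg _)
      _ = _ := by
          simp only [add_mul, Finset.sum_add_distrib, mul_assoc (l ^ s), mul_assoc (L ^ s),
            mul_assoc (L ^ (s - 1)), ← Finset.mul_sum (a := l ^ s), ← Finset.mul_sum (a := L ^ s),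
            ← Finset.mul_sum (a := L ^ (s - 1)), c1, c2, mul_one]

end Pool.Agent.MP_47bb2a_mp.H74
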