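import Pool.Agent.MP_47bb2a_mp.H74.Expo
import Pool.Agent.MP_47bb2a_mp.H74.Defs

/-! The constrained de Finetti reduction after taking a power. -/

open scoped ComplexOrder MatrixOrder
open Matrix Real Filter MeasureTheory

namespace Pool.Agent.MP_47bb2a_mp.H74

open H97 H20

section

variable {ι : Type*} [Fintype ι] [DecidableEq ι] {X Y : Matrix ι ι ℂ} {s : ℝ} {n : ℕ}

open scoped Matrix.Norms.L2Operator in
theorem pw_mono (s0 : 0 ≤ s) (s1 : s ≤ 1) (hX : 0 ≤ X) (h : X ≤ Y) :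
    cfc (fun t : ℝ => t ^ s) X ≤ cfc (fun t : ℝ => t ^ s) Y := by
  have : X ^ s ≤ Y ^ s := CFC.monotone_rpow ⟨s0, s1⟩ h
  rwa [CFC.rpow_eq_cfc_real hX, CFC.rpow_eq_cfc_real (hX.trans h)] at this

open scoped Matrix.Norms.L2Operator in
theorem pw_conc (s0 : 0 ≤ s) (s1 : s ≤ 1) (hX : 0 ≤ X) (hY : 0 ≤ Y) {a b : ℝ} (ha : 0 ≤ a)
    (hb : 0 ≤ b) (e : a + b = 1) : a • cfc (fun t : ℝ => t ^ s) X + b • cfc (fun t : ℝ => t ^ s) Y ≤
      cfc (fun t : ℝ => t ^ s) (a • X + b • Y) := by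
  have : a • X ^ s + b • Y ^ s ≤ (a • X + b • Y) ^ s :=
    (CFC.concaveOn_rpow ⟨s0, s1⟩).2 hX hY ha hb e
  rwa [CFC.rpow_eq_cfc_real hX, CFC.rpow_eq_cfc_real hY,
    CFC.rpow_eq_cfc_real (add_nonneg (H42.smul_nn hX ha) (H42.smul_nn hY hb))] at this

theorem pw_smul (hX : X.PosSemidef) {c : ℝ} (hc : 0 ≤ c) :
    cfc (fun t : ℝ => t ^ s) (c • X) = c ^ s • cfc (fun t : ℝ => t ^ s) X := by
  obtain ⟨U, d, hU, hd, rfl⟩ := exists_sp_psd hX
  simp only [sp_smul, cfc_sp hU, mul_rpow hc (hd _)]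

theorem pw_tp (hX : X.PosSemidef) :
    cfc (fun t : ℝ => t ^ s) (tp n X) = tp n (cfc (fun t : ℝ => t ^ s) X) := by
  obtain ⟨U, d, hU, hd, rfl⟩ := exists_sp_psd hX
  simp only [tp_sp, cfc_sp hU, cfc_sp hU.tp, finsetProd_rpow _ _ fun i _ => hd _]

theorem pw_psd (hX : X.PosSemidef) : (cfc (fun t : ℝ => t ^ s) X).PosSemidef := by
  obtain ⟨U, d, hU, hd, rfl⟩ := exists_sp_psd hX
  rw [cfc_sp hU]
  exact sp_psd _ fun i => rpow_nonneg (hd i) _

theorem pw_one (c : ℝ) : cfc (fun t : ℝ => t ^ s) (c • (1 : Matrix ι ι ℂ)) = c ^ s • 1 := by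
  rw [← sp_const uni_one, cfc_sp uni_one, sp_const uni_one]

end

variable (A B : Type) [Fintype A] [DecidableEq A] [Fintype B] [DecidableEq B] [Nonempty A]
  [Nonempty B]

theorem key {Δ : ℝ} (hΔ : 0 < Δ) : ∃ s : ℝ, 0 < s ∧ s ≤ 1 / 2 ∧ ∀ᶠ n : ℕ in atTop,
    ∀ (U : Matrix (A × B) (A × B) ℂ) (p : A × B → ℝ), Uni U → (∀ i, 0 ≤ p i) → ∑ i, p i = 1 →
      ∀ σ ∈ Sep A B n, Symm σ → ∃ t : ℝ, 0 < t ∧ ∃ X ∈ KK A B, t • sp U p ≤ X ∧
        tr (tp n (sp U fun i => p i ^ (1 - s))) (cfc (fun x : ℝ => x ^ s) σ) ≤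
          rexp (n * (s * Δ)) * (t ^ s) ^ n := by
  obtain ⟨c, c0, hc⟩ := expo A B (show 0 < Δ / 3 by positivity)
  have l0 : 0 ≤ log (Fintype.card (A × B)) := log_natCast_nonneg _
  obtain ⟨s, s0, s1, s2⟩ : ∃ s : ℝ, 0 < s ∧ s ≤ 1 / 2 ∧
      (log (Fintype.card (A × B)) + 1) * s ≤ c / 4 :=
    ⟨min (1 / 2) (c / 4 / (log (Fintype.card (A × B)) + 1)), by positivity, min_le_left _ _,
      (le_div_iff₀' (by positivity)).1 (min_le_right _ _)⟩
  refine ⟨s, s0, s1, ?_⟩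
  filter_upwards [hc, eventually_gt_atTop 0, poly_le 0 (show 0 < s * (Δ / 3) by positivity) 2]
    with n hn n0 p1 U p hU p0 p2 σ hσ hs
  have n0' : (0 : ℝ) < n := by exact_mod_cast n0
  rw [pow_zero, mul_one] at p1
  have e : (sp U fun i => √(p i)) * sp U (fun i => √(p i)) = sp U p := by
    simp only [sp_mul hU, mul_self_sqrt (p0 _)]
  obtain ⟨ω, w1, w2, w3, w4⟩ := hn _ (sp_herm _ _) (by rw [e, sp_trace hU, p2, Complex.ofReal_one])
  rw [e] at w3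
  obtain ⟨Q, hQ⟩ : ∃ Q, Q = tr (tp n (sp U fun i => p i ^ (1 - s))) (cfc (fun x : ℝ => x ^ s) σ) :=
    ⟨_, rfl⟩
  have main : ∃ a, Ok (tp n ω) (n * a) ∧ Q ≤ 2 * rexp (s * (Δ / 3) * n - s * a * n) := by
    rcases le_or_gt Q 0 with Q0 | Q0
    · exact ⟨_, ok_triv w1 w2 n, Q0.trans (by positivity)⟩
    have l1 : 0 < (Q / 2) ^ s⁻¹ := by positivity
    obtain ⟨V, o, v1, v2, v3, v4, v5, v6⟩ := modular hU p0 p2 (sep_state hσ) hs l1
      (exp_pos (c * n / 2)) s0 (by linarith)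
    rcases le_total (rexp (-(c * n))) o with h | h
    · refine ⟨-log ((Q / 2) ^ s⁻¹) / n + Δ / 3, (w4 σ hσ V _ o v1 (v2.trans_le v4) l1 h v3.ge
        v5).mono (le_of_eq (by field_simp)), le_of_eq ?_⟩
      rw [log_rpow (half_pos Q0), show s * (Δ / 3) * n - s * (-(s⁻¹ * log (Q / 2)) / n + Δ / 3) * n =
        log (Q / 2) by field_simp; ring, exp_log (half_pos Q0)]
      ring
    · refine ⟨_, ok_triv w1 w2 n, ?_⟩
      rw [← hQ, rpow_inv_rpow (half_pos Q0).le s0.ne', ← exp_mul, ← exp_mul] at v6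
      have cn : 0 < c * n := by positivity
      have a1 : rexp (c * n / 2 * s) * o ≤ rexp (-(c / 4 * n)) := by
        refine (mul_le_mul_of_nonneg_left h (exp_pos _).le).trans ?_
        rw [← exp_add, exp_le_exp]
        nlinarith
      have a2 : rexp (c * n / 2 * (s - 1)) ≤ rexp (-(c / 4 * n)) := by
        rw [exp_le_exp]
        nlinarith
      have a3 : rexp (-(c / 4 * n)) ≤ rexp (-(s * log (Fintype.card (A × B)) * n)) := by
        rw [exp_le_exp]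
        nlinarith
      rw [sub_eq_add_neg, exp_add]
      nlinarith [mul_le_mul_of_nonneg_right p1
        (exp_pos (-(s * log (Fintype.card (A × B)) * n))).le]
  obtain ⟨a, h1, h2⟩ := main
  refine ⟨rexp (-a - Δ / 3), exp_pos _, _, ⟨rexp (-a), ω, exp_pos _, w1, w2, rfl, fun ε hε => by
    simpa only [log_exp, neg_neg] using fekete w1 w2 n0 h1 hε⟩, ?_, ?_⟩
  · refine (H42.smul_le w3 (exp_pos _).le).trans_eq ?_
    rw [smul_smul, ← exp_add, sub_add_cancel]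
  · rw [← hQ, ← exp_mul, ← exp_nat_mul, ← exp_add]
    refine h2.trans ((mul_le_mul_of_nonneg_right p1 (exp_pos _).le).trans_eq ?_)
    rw [← exp_add]
    congr 1
    ring

/-- The convex set below the powers of the elements of `KK`. -/
def CC (s : ℝ) : Set (Matrix (A × B) (A × B) ℂ) :=
  {w | w.PosSemidef ∧ ∃ X ∈ KK A B, (Fintype.card (A × B) : ℝ) • w ≤ cfc (fun t : ℝ => t ^ s) X}

theorem base_CC {s : ℝ} (s0 : 0 ≤ s) (s1 : s ≤ 1) :
    Base (CC A B s) ((Fintype.card (A × B) : ℝ)⁻¹ * (Fintype.card (A × B) : ℝ)⁻¹) where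
  convex := by
    rintro w ⟨h1, X, h2, h3⟩ w' ⟨k1, Y, k2, k3⟩ a b ha hb e
    refine ⟨convex_psd h1 k1 ha hb e, _, base_KK.convex h2 k2 ha hb e, le_trans ?_
      (pw_conc s0 s1 (base_KK.psd _ h2).nonneg (base_KK.psd _ k2).nonneg ha hb e)⟩
    rw [smul_add, smul_comm _ a, smul_comm _ b]
    exact add_le_add (H42.smul_le h3 ha) (H42.smul_le k3 hb)
  psd := fun _ h => h.1
  tr := by
    rintro w ⟨-, X, h2, h3⟩
    have := H42.tr_le (h3.trans (pw_mono s0 s1 (base_KK.psd _ h2).nonneg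
      (state_le_one (base_KK.psd _ h2) (base_KK.tr _ h2))))
    rw [pw_one, one_rpow, one_smul, map_smul, H42.tr_one, smul_eq_mul] at this
    exact (mul_le_iff_le_one_right H42.card_pos).1 this
  pos := mul_pos (inv_pos.2 H42.card_pos) (inv_pos.2 H42.card_pos)
  one := by
    have d1 : (1 : ℝ) ≤ Fintype.card (A × B) := by exact_mod_cast Fintype.card_pos
    refine ⟨psd_rsmul PosSemidef.one (by positivity), _, base_KK.one, ?_⟩
    rw [pw_one, smul_smul, mul_inv_cancel_left₀ (by positivity)]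
    exact H42.le_smul H42.one_nn (by simpa using (rpow_le_rpow_of_exponent_ge
      (inv_pos.2 (one_pos.trans_le d1)) (inv_le_one_of_one_le₀ d1) s1))

theorem test {Δ : ℝ} (hΔ : 0 < Δ) : ∃ s : ℝ, 0 < s ∧ s ≤ 1 ∧ ∀ᶠ n : ℕ in atTop,
    ∀ σ ∈ Sep A B n, Symm σ → ∀ G, Polar (CC A B s) G →
      tr (tp n G) (cfc (fun x : ℝ => x ^ s) σ) ≤
        rexp (n * (s * Δ)) * (Fintype.card (A × B) : ℝ) ^ n := by
  obtain ⟨s, s0, s1, hs⟩ := key A B hΔ
  refine ⟨s, s0, by linarith, (hs.and (eventually_gt_atTop 0)).mono fun n ⟨hn, n0⟩ σ h1 h2 G hG => ?_⟩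
  have d0 : (0 : ℝ) < Fintype.card (A × B) := H42.card_pos
  have s2 : 0 < 1 - s := by linarith
  obtain ⟨U, d, hU, hd, rfl⟩ := exists_sp_psd hG.1
  have z0 : ∀ i, 0 ≤ d i ^ (1 - s)⁻¹ := fun i => rpow_nonneg (hd i) _
  rcases (Finset.sum_nonneg fun i (_ : i ∈ Finset.univ) => z0 i).eq_or_lt with h | h
  · have : ∀ i, d i = 0 := fun i => (rpow_eq_zero (hd i) (inv_pos.2 s2).ne').1
      ((Finset.sum_eq_zero_iff_of_nonneg fun i _ => z0 i).1 h.symm i (Finset.mem_univ i))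
    rw [funext this, sp_const hU, tp_rsmul, zero_pow n0.ne', smul_tr, zero_mul]
    positivity
  obtain ⟨Z, hZ⟩ : ∃ Z, Z = ∑ i, d i ^ (1 - s)⁻¹ := ⟨_, rfl⟩
  rw [← hZ] at h
  have p0 : ∀ i, 0 ≤ d i ^ (1 - s)⁻¹ / Z := fun i => div_nonneg (z0 i) h.le
  have p1 : ∑ i, d i ^ (1 - s)⁻¹ / Z = 1 := by rw [← Finset.sum_div, ← hZ, div_self h.ne']
  have e : sp U d = Z ^ (1 - s) • sp U fun i => (d i ^ (1 - s)⁻¹ / Z) ^ (1 - s) := by
    rw [sp_smul]
    congr 1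
    funext i
    rw [div_rpow (z0 i) h.le, rpow_inv_rpow (hd i) s2.ne', mul_div_cancel₀ _ (by positivity)]
  obtain ⟨t, t0, X, x1, x2, x3⟩ := hn U _ hU p0 p1 σ h1 h2
  have a1 := hG.2 ((Fintype.card (A × B) : ℝ)⁻¹ • cfc (fun t : ℝ => t ^ s) X)
    ⟨psd_rsmul (pw_psd (base_KK.psd _ x1)) (by positivity), X, x1, (smul_inv_smul₀ d0.ne' _).le⟩
  have a2 := tr_le hG.1 (le_iff.1 (pw_mono s0.le (by linarith)
    (psd_rsmul (sp_psd U p0) t0.le).nonneg x2))
  rw [← tr, tr_smul, inv_mul_le_iff₀ d0, mul_one] at a1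
  have a3 := a2.trans a1
  rw [pw_smul (sp_psd U p0) t0.le, cfc_sp hU, e, tr_smul, smul_tr, tr, sp_mul hU, sp_trace hU,
    Complex.ofReal_re] at a3
  simp only [← rpow_add_of_nonneg (p0 _) s2.le s0.le, sub_add_cancel, rpow_one, p1, mul_one] at a3
  rw [e, tp_rsmul, smul_tr]
  refine (mul_le_mul_of_nonneg_left x3 (by positivity)).trans ?_
  rw [mul_left_comm, ← mul_pow, mul_comm (Z ^ (1 - s))]
  gcongr

theorem power : ∃ μ : Measure (States (A × B)), IsProbabilityMeasure μ ∧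
    ∀ Δ > (0 : ℝ), ∃ s : ℝ, 0 < s ∧ s ≤ 1 ∧ ∃ N : ℕ, ∀ n, N ≤ n →
      ∀ σ ∈ Sep A B n, Symm σ → PowDominated μ
        (fun ω => (EReal.exp (-relEntSep (tp n ω.1) + (n * Δ : ℝ))).toReal) s σ := by
  obtain ⟨μ, h1, -, h2⟩ := dominated_exp (base_KK (A := A) (B := B))
  refine ⟨μ, h1, fun Δ hΔ => ?_⟩
  have d0 : (0 : ℝ) < Fintype.card (A × B) := H42.card_pos
  obtain ⟨η, η0, rfl⟩ : ∃ η, 0 < η ∧ Δ = η + (η + η) := ⟨Δ / 3, by positivity, by ring⟩
  obtain ⟨s, s0, s1, hs⟩ := test A B η0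
  obtain ⟨N, hN⟩ := core (base_CC A B s0.le s1) (mul_pos s0 η0)
  have h3 := h2 (fun n ω => relEntSep (tp n ω.1)) (fun n => ⟨_, fun ω => relEntSep_ge (tp_psd ω.2.1)⟩)
    (by
      rintro ω t ⟨t', ω', t0, w1, -, e, w3⟩
      have e1 := congrArg (fun M : Matrix (A × B) (A × B) ℂ => M.trace.re) e
      simp only [trace_smul, ω.2.2, w1.2, Complex.smul_re, Complex.one_re, smul_eq_mul,
        mul_one] at e1
      subst e1
      rw [smul_right_injective _ t0.ne' e]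
      refine ⟨t0, fun ε hε => (w3 ε hε).mono fun n ⟨σ, s1, s2, s3⟩ => (iInf₂_le _ s1).trans ?_⟩
      rwa [relEnt_eq _ s2, EReal.coe_le_coe_iff]) η η0
  refine ⟨s, s0, s1, eventually_atTop.1 ?_⟩
  filter_upwards [hs, h3, eventually_ge_atTop N] with n a1 a2 hn σ b1 b2
  have a3 : ∀ X ∈ KK A B, Dominated μ (fun ω =>
      (EReal.exp (-relEntSep (tp n ω.1) + (n * η : ℝ))).toReal) (tp n X) := fun X hX =>
    a2 _ (tp_psd (base_KK.psd _ hX)) (tp_symm X) fun G hG => by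
      have p := tr_nonneg hG.1 (base_KK.psd _ hX)
      have r : (G * X).trace = (G * X).trace.re := by
        obtain ⟨C, rfl⟩ := exists_ct hG.1
        rw [Matrix.mul_assoc, trace_mul_comm]
        exact trace_re ((base_KK.psd _ hX).mul_mul_conjTranspose_same C)
      rw [tp_mul, tp_trace, r, ← Complex.ofReal_pow, Complex.ofReal_re]
      exact pow_le_one₀ p (hG.2 X hX)
  have ew : ∀ ω : States (A × B), (EReal.exp (-relEntSep (tp n ω.1) +
      (n * (η + (η + η)) : ℝ))).toReal =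
      rexp (n * (η + η)) * (EReal.exp (-relEntSep (tp n ω.1) + (n * η : ℝ))).toReal :=
    fun ω => by
      rw [mul_add, EReal.coe_add, ← add_assoc,
        EReal.exp_add, ENNReal.toReal_mul, EReal.exp_coe, ENNReal.toReal_ofReal (exp_pos _).le,
        mul_comm]
  obtain ⟨i1, i2⟩ := a3 _ base_KK.one
  set τ := of fun x y => ∫ ω : States (A × B), ((EReal.exp (-relEntSep (tp n ω.1) +
    (n * η : ℝ))).toReal : ℂ) * tp n ω.1 x y ∂μ with hτ
  have τp : τ.PosSemidef := by simpa using i2.add (tp_psd (base_KK.psd _ base_KK.one))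
  have e : (of fun x y => ∫ ω : States (A × B), ((EReal.exp (-relEntSep (tp n ω.1) +
      (n * (η + (η + η)) : ℝ))).toReal : ℂ) * tp n ω.1 x y ∂μ) = rexp (n * (η + η)) • τ := by
    ext x y
    simp only [ew, hτ, of_apply, Matrix.smul_apply, Complex.ofReal_mul, mul_assoc,
      integral_const_mul, Complex.real_smul]
  refine ⟨fun x y => ?_, e ▸ psd_rsmul τp (exp_pos _).le, ?_⟩
  · simp only [ew, Complex.ofReal_mul, mul_assoc]
    exact (i1 x y).const_mul _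
  have σp := (sep_state b1).1
  have c0 : 0 < rexp (n * (s * η)) * (Fintype.card (A × B) : ℝ) ^ n := by positivity
  rw [e, pw_smul τp (exp_pos _).le]
  refine psd_of_q ((herm_rsmul (pw_psd τp).1 _).sub (pw_psd σp).1) fun v => ?_
  have a4 := hN n hn _ (psd_rsmul (pw_psd (s := s) σp) (inv_pos.2 c0).le)
    (fun g x y => by simp only [Matrix.smul_apply, symm_cfc σp.1 b2 _ g x y]) (fun G hG => by
      rw [← tr, tr_smul, inv_mul_le_iff₀ c0, mul_one]
      exact a1 σ b1 b2 G hG) v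
    (((Fintype.card (A × B) : ℝ) ^ n)⁻¹ * q (cfc (fun t : ℝ => t ^ s) τ) v)
    fun w ⟨w1, X, w2, w3⟩ => by
      have k1 := tp_mono (n := n) (psd_rsmul w1 d0.le) w3
      have k2 := pw_mono s0.le s1 (tp_psd (base_KK.psd _ w2)).nonneg (le_iff.2 (a3 X w2).2)
      rw [← pw_tp (base_KK.psd _ w2), tp_rsmul] at k1
      have k3 := (q_le k1 v).trans (q_le (le_iff.1 k2) v)
      rwa [q_rsmul, ← le_inv_mul_iff₀ (pow_pos d0 n)] at k3
  rw [q_rsmul, inv_mul_le_iff₀ c0] at a4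
  rw [q_sub, q_rsmul, sub_nonneg, ← exp_mul]
  refine a4.trans_eq ?_
  rw [show n * (η + η) * s = n * (s * η) + n * (s * η) by ring, exp_add]
  field_simp

end Pool.Agent.MP_47bb2a_mp.H74
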