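import Pool.Agent.MP_47bb2a_mp.H20.Final
import Pool.Agent.MP_47bb2a_mp.H42.Conv

/-! Subadditivity and convexity of the regularised relative entropy of entanglement. -/

open scoped ComplexOrder MatrixOrder Kronecker
open Matrix Filter Real

namespace Pool.Agent.MP_47bb2a_mp.H74

open H97 H20

section

variable {ι κ : Type*} [Fintype ι] [Fintype κ] {k m n : ℕ}

/-- Tensor product of operators on complementary sets of sites. -/
def jn (e : Fin k ⊕ Fin m ≃ Fin n) (M : Matrix (Fin k → ι) (Fin k → ι) ℂ)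
    (N : Matrix (Fin m → ι) (Fin m → ι) ℂ) : Matrix (Fin n → ι) (Fin n → ι) ℂ :=
  (M ⊗ₖ N).submatrix (H42.sp e ι) (H42.sp e ι)

theorem jn_state (e : Fin k ⊕ Fin m ≃ Fin n) {M : Matrix (Fin k → ι) (Fin k → ι) ℂ}
    {N : Matrix (Fin m → ι) (Fin m → ι) ℂ} (h : IsState M) (h' : IsState N) : IsState (jn e M N) :=
  ⟨(kron_state h h').1.submatrix _, (Equiv.sum_comp _ (diag (M ⊗ₖ N))).trans (kron_state h h').2⟩

theorem jn_sep (e : Fin k ⊕ Fin m ≃ Fin n) {M : Matrix (Fin k → ι × κ) (Fin k → ι × κ) ℂ}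
    {N : Matrix (Fin m → ι × κ) (Fin m → ι × κ) ℂ} (h : M ∈ Sep ι κ k) (h' : N ∈ Sep ι κ m) :
    jn e M N ∈ Sep ι κ n := by
  refine convexHull_min (t := {M | jn e M N ∈ Sep ι κ n}) ?_ ?_ h
  · rintro _ ⟨α, β, h1, h2, rfl⟩
    refine convexHull_min (t := {N | jn e (cut α β) N ∈ Sep ι κ n}) ?_ ?_ h'
    · rintro _ ⟨α', β', h3, h4, rfl⟩
      refine subset_convexHull _ _ ⟨_, _, jn_state e h1 h3, jn_state e h2 h4, ?_⟩
      ext x y
      exact mul_mul_mul_comm _ _ _ _
    · intro x hx y hy a b ha hb e'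
      change jn _ _ _ ∈ Sep ι κ n
      refine Set.mem_of_eq_of_mem ?_ (convex_convexHull ℝ _ hx hy ha hb e')
      simp only [jn, kronecker_add, kronecker_smul, submatrix_add, submatrix_smul, Pi.add_apply,
        Pi.smul_apply]
  · intro x hx y hy a b ha hb e'
    change jn _ _ _ ∈ Sep ι κ n
    refine Set.mem_of_eq_of_mem ?_ (convex_convexHull ℝ _ hx hy ha hb e')
    simp only [jn, add_kronecker, smul_kronecker, submatrix_add, submatrix_smul, Pi.add_apply,
      Pi.smul_apply]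

variable [DecidableEq ι]

theorem D_sum {J : Type*} (s : Finset J) (hs : s.Nonempty) {w : J → ℝ} (hw : ∀ j, 0 < w j)
    {X W : J → Matrix ι ι ℂ} (hX : ∀ j, (X j).PosDef) (hW : ∀ j, (W j).PosDef) :
    (∑ j ∈ s, w j • X j).PosDef ∧ (∑ j ∈ s, w j • W j).PosDef ∧
      rel (∑ j ∈ s, w j • X j) (∑ j ∈ s, w j • W j) ≤ ∑ j ∈ s, w j * rel (X j) (W j) := by
  induction hs using Finset.Nonempty.cons_induction with
  | singleton a =>
    simp only [Finset.sum_singleton]
    refine ⟨(hX a).smul (hw a), (hW a).smul (hw a), le_of_eq ?_⟩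
    rw [rel, log_smul (hX a) (hw a), log_smul (hW a) (hw a), add_sub_add_left_eq_sub, smul_tr, rel]
  | cons a s ha _ ih =>
    simp only [Finset.sum_cons]
    have := H42.D_convex (hX a) ih.1 (hW a) ih.2.1 (hw a) one_pos
    rw [one_smul, one_smul, one_mul] at this
    exact ⟨((hX a).smul (hw a)).add ih.1, ((hW a).smul (hw a)).add ih.2.1,
      le_trans this (add_le_add_right ih.2.2 _)⟩

theorem mean {p : κ → ℝ} (p1 : ∑ a, p a = 1) (g : κ → ℝ) (n : ℕ) :
    ∑ x : Fin n → κ, (∏ i, p (x i)) * ∑ i, g (x i) = n * ∑ a, p a * g a := by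
  have h : ∀ i : Fin n, ∑ x : Fin n → κ, (∏ k, p (x k)) * g (x i) = ∑ a, p a * g a := fun i => by
    have e : ∑ x : Fin n → κ, (∏ k, p (x k)) * g (x i) = ∏ k, ∑ a,
        p a * if k = i then g a else 1 := by
      rw [Fintype.prod_sum]
      simp only [Finset.prod_mul_distrib, Finset.prod_ite_eq', Finset.mem_univ, if_true]
    rw [e, Finset.prod_eq_single i (fun k _ hk => by simp [hk, p1]) (by simp)]
    simp
  simp only [Finset.mul_sum]
  rw [Finset.sum_comm]
  simp [h, Finset.mul_sum]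

end

variable {A B : Type} [Fintype A] [DecidableEq A] [Fintype B] [DecidableEq B] {k m n : ℕ}

/-- The relative entropy of entanglement of `F` is at most `x`. -/
def Ok (F : Matrix (Fin n → A × B) (Fin n → A × B) ℂ) (x : ℝ) : Prop :=
  ∃ σ ∈ Sep A B n, σ.PosDef ∧ rel F σ ≤ x

theorem Ok.mono {F : Matrix (Fin n → A × B) (Fin n → A × B) ℂ} {x y : ℝ} (h : Ok F x)
    (hxy : x ≤ y) : Ok F y := h.imp fun _ h => ⟨h.1, h.2.1, h.2.2.trans hxy⟩

theorem Ok.nonneg {F : Matrix (Fin n → A × B) (Fin n → A × B) ℂ} {x : ℝ} (h : Ok F x)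
    (hF : IsState F) : 0 ≤ x := by
  obtain ⟨σ, h1, h2, h3⟩ := h
  exact (rel_nonneg hF (sep_state h1) h2).trans h3

theorem tp_state {ι : Type*} [Fintype ι] {ω : Matrix ι ι ℂ} (h : IsState ω) : IsState (tp n ω) :=
  ⟨tp_psd h.1, by rw [tp_trace, h.2, one_pow]⟩

theorem tp_pd {ι : Type*} [Fintype ι] [DecidableEq ι] {ω : Matrix ι ι ℂ} (h : ω.PosDef) :
    (tp n ω).PosDef := H42.tens_pd fun _ => h

theorem state_le_one {ι : Type*} [Fintype ι] [DecidableEq ι] {ω : Matrix ι ι ℂ} (h : ω.PosSemidef)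
    {c : ℝ} (h1 : ω.trace.re ≤ c) : ω ≤ c • 1 := by
  obtain ⟨U, d, hU, hd, rfl⟩ := exists_sp_psd h
  rw [sp_trace hU, Complex.ofReal_re] at h1
  rw [← sp_const hU]
  exact sp_le U fun i => (Finset.single_le_sum (fun j _ => hd j) (Finset.mem_univ i)).trans h1

theorem Ok.split (e : Fin k ⊕ Fin m ≃ Fin n) {F : Fin n → Matrix (A × B) (A × B) ℂ}
    (hF : ∀ i, (F i).PosDef ∧ (F i).trace = 1) {x y : ℝ}
    (h : Ok (tpF fun i => F (e (.inl i))) x) (h' : Ok (tpF fun i => F (e (.inr i))) y) :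
    Ok (tpF F) (x + y) := by
  obtain ⟨σ, s1, s2, s3⟩ := h
  obtain ⟨τ, t1, t2, t3⟩ := h'
  have p1 : (tpF fun i => F (e (.inl i))).PosDef := H42.tens_pd fun i => (hF _).1
  have p2 : (tpF fun i => F (e (.inr i))).PosDef := H42.tens_pd fun i => (hF _).1
  refine ⟨_, jn_sep e s1 t1, (s2.kronecker t2).submatrix (Equiv.injective _), ?_⟩
  have e1 : tpF F = jn e (tpF fun i => F (e (.inl i))) (tpF fun i => F (e (.inr i))) :=
    H42.tens_sp e F
  rw [e1, jn, jn, rel_sub_equiv _ (p1.kronecker p2).1 (s2.kronecker t2).1,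
    rel_kron p1 s2 p2 t2 (by simp [tpF_trace, hF]) (by simp [tpF_trace, hF])]
  exact add_le_add s3 t3

variable [Nonempty A] [Nonempty B] {ω : Matrix (A × B) (A × B) ℂ}

theorem mixed_sep : (Fintype.card (A × B) : ℝ)⁻¹ • (1 : Matrix (A × B) (A × B) ℂ) ∈ Sep1 A B := by
  have := (base_sep1 (A := A) (B := B)).one
  rwa [← mul_inv, ← Nat.cast_mul, ← Fintype.card_prod] at this

theorem ok_triv (h : IsState ω) (h' : ω.PosDef) (n : ℕ) :
    Ok (tp n ω) (n * log (Fintype.card (A × B))) := by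
  have d0 : (0 : ℝ) < Fintype.card (A × B) := H42.card_pos
  have p := tp_pd (n := n) ((PosDef.one (n := A × B) (R := ℂ)).smul (inv_pos.2 d0))
  refine ⟨_, tp_sep mixed_sep, p, ?_⟩
  rw [← log_pow]
  refine rel_le_log (tp_state h) (tp_pd h') p (pow_pos d0 n) ?_
  rw [← tp_rsmul, smul_inv_smul₀ d0.ne']
  exact tp_mono h.1 (le_iff.1 (by simpa using state_le_one h.1 (c := 1) (by simp [h.2])))

theorem fekete (h : IsState ω) (h' : ω.PosDef) (hn : 0 < n) {a : ℝ} (ha : Ok (tp n ω) (n * a))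
    {ε : ℝ} (hε : 0 < ε) : ∀ᶠ m : ℕ in atTop, Ok (tp m ω) (m * (a + ε)) := by
  have n0 : (0 : ℝ) < n := by exact_mod_cast hn
  have a0 : 0 ≤ a := nonneg_of_mul_nonneg_right (ha.nonneg (tp_state h)) n0
  have l0 : 0 ≤ log (Fintype.card (A × B)) := log_natCast_nonneg _
  have key : ∀ m : ℕ, Ok (tp m ω) (m * a + n * log (Fintype.card (A × B))) := fun m => by
    induction m using Nat.strong_induction_on with
    | _ m ih =>
      rcases lt_or_ge m n with hm | hm
      · refine (ok_triv h h' m).mono ?_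
        have : (m : ℝ) ≤ n := by exact_mod_cast hm.le
        nlinarith [mul_nonneg (m.cast_nonneg (α := ℝ)) a0]
      · obtain ⟨j, rfl⟩ := Nat.exists_eq_add_of_le hm
        refine (Ok.split finSumFinEquiv (F := fun _ => ω) (fun _ => ⟨h', h.2⟩) ha
          (ih j (by omega))).mono (le_of_eq ?_)
        push_cast
        ring
  filter_upwards [tendsto_natCast_atTop_atTop.eventually_ge_atTop
    (n * log (Fintype.card (A × B)) / ε)] with m hm
  refine (key m).mono ?_
  rw [div_le_iff₀ hε] at hm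
  linarith

/-- Multiples `t ω` of states with `t ≤ exp (-E ω)`, `E` the regularised entanglement. -/
def KK (A B : Type) [Fintype A] [DecidableEq A] [Fintype B] [DecidableEq B] :
    Set (Matrix (A × B) (A × B) ℂ) :=
  {X | ∃ (t : ℝ) (ω : Matrix (A × B) (A × B) ℂ), 0 < t ∧ IsState ω ∧ ω.PosDef ∧ X = t • ω ∧
    ∀ ε > (0 : ℝ), ∀ᶠ n : ℕ in atTop, Ok (tp n ω) (n * (-log t + ε))}

theorem ok_all (h : IsState ω) (h' : ω.PosDef) {a : ℝ} (ha : 0 ≤ a)
    (H : ∀ᶠ n : ℕ in atTop, Ok (tp n ω) (n * a)) : ∃ C, ∀ n : ℕ, Ok (tp n ω) (n * a + C) := by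
  obtain ⟨N, hN⟩ := eventually_atTop.1 H
  have l0 : 0 ≤ log (Fintype.card (A × B)) := log_natCast_nonneg _
  refine ⟨N * log (Fintype.card (A × B)), fun n => ?_⟩
  rcases le_total N n with hn | hn
  · exact (hN n hn).mono (le_add_of_nonneg_right (by positivity))
  · refine (ok_triv h h' n).mono ?_
    have : (n : ℝ) ≤ N := by exact_mod_cast hn
    nlinarith [mul_nonneg (n.cast_nonneg (α := ℝ)) ha]

omit [Nonempty A] [Nonempty B] in
theorem neg_log_nonneg (h : IsState ω) {t : ℝ}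
    (H : ∀ ε > (0 : ℝ), ∀ᶠ n : ℕ in atTop, Ok (tp n ω) (n * (-log t + ε))) : 0 ≤ -log t := by
  refine le_of_forall_pos_le_add fun ε hε => ?_
  obtain ⟨n, h1, h2⟩ := ((H ε hε).and (eventually_gt_atTop 0)).exists
  exact nonneg_of_mul_nonneg_right (h1.nonneg (tp_state h)) (by exact_mod_cast h2)

omit [Nonempty A] [Nonempty B] in
theorem ok_mix {w : Bool → Matrix (A × B) (A × B) ℂ} (h : ∀ b, IsState (w b))
    (h' : ∀ b, (w b).PosDef) {p a C : Bool → ℝ} (p0 : ∀ b, 0 < p b) (p1 : ∑ b, p b = 1)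
    (H : ∀ b (n : ℕ), Ok (tp n (w b)) (n * a b + C b)) (n : ℕ) :
    Ok (tp n (∑ b, p b • w b)) (n * ∑ b, p b * a b + ∑ b, C b) := by
  have h1 : ∀ s : Fin n → Bool, Ok (tpF fun i => w (s i)) (∑ i, a (s i) + ∑ b, C b) := fun s => by
    set S := Finset.univ.filter fun i => s i = true with hS
    have i1 : ∀ i, s (finSumEquivOfFinset (s := S) rfl rfl (.inl i)) = true := fun i =>
      (Finset.mem_filter.1 (S.orderEmbOfFin_mem rfl i)).2
    have i2 : ∀ i, s (finSumEquivOfFinset (s := S) rfl rfl (.inr i)) = false := fun i =>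
      Bool.eq_false_iff.2 fun h => Finset.mem_compl.1 (Sᶜ.orderEmbOfFin_mem rfl i)
        (Finset.mem_filter.2 ⟨Finset.mem_univ _, h⟩)
    refine (Ok.split (finSumEquivOfFinset (s := S) rfl rfl) (fun i => ⟨h' _, (h _).2⟩)
      (by simp only [i1]; exact H true _) (by simp only [i2]; exact H false _)).mono (le_of_eq ?_)
    rw [← (finSumEquivOfFinset (s := S) rfl rfl).sum_comp, Fintype.sum_sum_type]
    simp only [i1, i2, Finset.sum_const, Finset.card_univ, Fintype.card_fin, nsmul_eq_mul,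
      Fintype.sum_bool]
    ring
  choose σ s1 s2 s3 using h1
  have w0 : ∀ s : Fin n → Bool, 0 < ∏ i, p (s i) := fun s => Finset.prod_pos fun _ _ => p0 _
  have w1 : ∑ s : Fin n → Bool, ∏ i, p (s i) = 1 := by
    rw [← Fintype.prod_sum fun (_ : Fin n) b => p b]
    simp only [p1, Finset.prod_const_one]
  obtain ⟨-, d2, d3⟩ := D_sum Finset.univ Finset.univ_nonempty w0
    (X := fun s => tpF fun i => w (s i)) (fun s => H42.tens_pd fun _ => h' _) s2
  have e : tp n (∑ b, p b • w b) =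
      ∑ s : Fin n → Bool, (∏ i, p (s i)) • tpF fun i => w (s i) := by
    ext x y
    simp only [tp, tpF, of_apply, Matrix.sum_apply, Matrix.smul_apply, Fintype.prod_sum,
      Complex.real_smul, Finset.prod_mul_distrib, Complex.ofReal_prod]
  refine ⟨_, (convex_convexHull ℝ _).sum_mem (fun s _ => (w0 s).le) w1 fun s _ => s1 s, d2, ?_⟩
  rw [e]
  refine d3.trans ((Finset.sum_le_sum fun s _ =>
    mul_le_mul_of_nonneg_left (s3 s) (w0 s).le).trans (le_of_eq ?_))
  simp only [mul_add, Finset.sum_add_distrib, mean p1, ← Finset.sum_mul, w1, one_mul]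

theorem base_KK : Base (KK A B) (Fintype.card (A × B) : ℝ)⁻¹ where
  convex := by
    refine convex_iff_forall_pos.2 ?_
    rintro _ ⟨t, ω, t0, h1, h2, rfl, h3⟩ _ ⟨u, τ, u0, k1, k2, rfl, k3⟩ a b a0 b0 ab
    have z : 0 < a * t + b * u := by positivity
    have q1 : a * t / (a * t + b * u) + b * u / (a * t + b * u) = 1 := by field_simp
    have q2 : 0 < a * t / (a * t + b * u) := by positivity
    have q3 : 0 < b * u / (a * t + b * u) := by positivity
    refine ⟨_, _, z, convex_state h1 k1 q2.le q3.le q1, (h2.smul q2).add (k2.smul q3), ?_,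
      fun ε hε => ?_⟩
    · simp only [smul_add, smul_smul, mul_div_cancel₀ _ z.ne']
    obtain ⟨C, hC⟩ := ok_all h1 h2 (add_nonneg (neg_log_nonneg h1 h3) (half_pos hε).le)
      (h3 _ (half_pos hε))
    obtain ⟨C', hC'⟩ := ok_all k1 k2 (add_nonneg (neg_log_nonneg k1 k3) (half_pos hε).le)
      (k3 _ (half_pos hε))
    filter_upwards [tendsto_natCast_atTop_atTop.eventually_ge_atTop ((C + C') / (ε / 2))] with n hn
    have := ok_mix (w := fun c => cond c ω τ) (by rintro (_ | _); exacts [k1, h1])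
      (by rintro (_ | _); exacts [k2, h2])
      (p := fun c => cond c (a * t / (a * t + b * u)) (b * u / (a * t + b * u)))
      (a := fun c => cond c (-log t + ε / 2) (-log u + ε / 2)) (C := fun c => cond c C C')
      (by rintro (_ | _); exacts [q3, q2]) (by simpa using q1)
      (by rintro (_ | _); exacts [hC', hC]) n
    simp only [Fintype.sum_bool, cond_true, cond_false] at this
    refine this.mono ?_
    rw [div_le_iff₀ (half_pos hε)] at hn
    have l1 := log_le_sub_one_of_pos (div_pos z t0)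
    have l2 := log_le_sub_one_of_pos (div_pos z u0)
    rw [log_div z.ne' t0.ne'] at l1
    rw [log_div z.ne' u0.ne'] at l2
    have e1 : a * t / (a * t + b * u) * ((a * t + b * u) / t) = a := by field_simp
    have e2 : b * u / (a * t + b * u) * ((a * t + b * u) / u) = b := by field_simp
    have m1 := mul_le_mul_of_nonneg_left l1 q2.le
    have m2 := mul_le_mul_of_nonneg_left l2 q3.le
    rw [mul_sub _ _ 1, e1] at m1
    rw [mul_sub _ _ 1, e2] at m2
    generalize a * t / (a * t + b * u) = q at *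
    generalize b * u / (a * t + b * u) = q' at *
    obtain rfl : q' = 1 - q := by linarith
    have : q * (-log t + ε / 2) + (1 - q) * (-log u + ε / 2) ≤ -log (a * t + b * u) + ε / 2 := by
      linarith
    nlinarith [mul_le_mul_of_nonneg_left this (n.cast_nonneg (α := ℝ))]
  psd := by
    rintro _ ⟨t, ω, t0, h1, -, rfl, -⟩
    exact psd_rsmul h1.1 t0.le
  tr := by
    rintro _ ⟨t, ω, t0, h1, -, rfl, h3⟩
    simpa [h1.2] using (log_nonpos_iff t0.le).1 (neg_nonneg.1 (neg_log_nonneg h1 h3))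
  pos := inv_pos.2 H42.card_pos
  one := by
    have p : ((Fintype.card (A × B) : ℝ)⁻¹ • (1 : Matrix (A × B) (A × B) ℂ)).PosDef :=
      PosDef.one.smul (inv_pos.2 H42.card_pos)
    refine ⟨1, _, one_pos, one_state, p, (one_smul _ _).symm, fun ε hε =>
      Eventually.of_forall fun n => ⟨_, tp_sep mixed_sep, tp_pd p, ?_⟩⟩
    simp only [rel, sub_self, tr, Matrix.mul_zero, trace_zero, Complex.zero_re, log_one, neg_zero,
      zero_add]
    positivity

end Pool.Agent.MP_47bb2a_mp.H74
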