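import Pool.Agent.MP_47bb2a_mp.H74.Mod

/-! From an almost product state below a blurred state to the product state. -/

open scoped ComplexOrder MatrixOrder
open Matrix Real

namespace Pool.Agent.MP_47bb2a_mp.H74

open H97 H20

variable {ι : Type*} [Fintype ι] [DecidableEq ι] {n : ℕ}

theorem rel_le_log' {Θ σ : Matrix ι ι ℂ} (hΘ : IsState Θ) (hσ : σ.PosDef) {c : ℝ} (hc : 0 < c)
    (h : Θ ≤ c • σ) : rel Θ σ ≤ log c := by
  obtain ⟨U, r, hU, r0, rfl⟩ := exists_sp_pd hσ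
  refine rel_le_two hΘ hU r0 hc ?_
  have h1 := H42.conj_le h (sp U fun i => (√(r i))⁻¹)
  rw [(sp_herm _ _).eq, sp_smul, sp_mul hU, sp_mul hU] at h1
  have e : (fun i => (√(r i))⁻¹ * (c * r i) * (√(r i))⁻¹) = fun _ => c := funext fun i => by
    have := sqrt_pos.2 (r0 i)
    field_simp
    rw [sq_sqrt (r0 i).le]
  rw [e, sp_const hU] at h1
  have h2 := tr_le hΘ.1 (le_iff.1 h1)
  rw [tr_smul, tr_one_state hΘ, mul_one] at h2
  simpa only [tr, Matrix.mul_assoc] using h2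

omit [DecidableEq ι] in
theorem two_cs {Z : Matrix ι ι ℂ} (h : 0 ≤ Z) (X Y : Matrix ι ι ℂ) {b : ℝ} (hb : 0 < b) :
    (X + Y) * Z * (X + Y)ᴴ ≤ (1 + b) • (X * Z * Xᴴ) + (1 + b⁻¹) • (Y * Z * Yᴴ) := by
  have := H42.op_cs h (fun c : Bool => cond c 1 b) (by rintro (_ | _) <;> simp [hb.le])
    fun c => cond c X (b⁻¹ • Y)
  simp only [Fintype.sum_bool, cond_true, cond_false, one_smul, smul_inv_smul₀ hb.ne',
    conjTranspose_smul, star_trivial, Matrix.smul_mul, Matrix.mul_smul, smul_add, smul_smul] at this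
  rwa [show (1 + b) * (b * (b⁻¹ * b⁻¹)) = 1 + b⁻¹ by field_simp; ring] at this

variable [Nonempty ι]

theorem lip_tp {ω : Matrix ι ι ℂ} {μ δ Λ : ℝ} (hμ : 0 < μ) (h1 : μ • 1 ≤ ω) (h2 : ω ≤ 1)
    {σ : Matrix (Fin n → ι) (Fin n → ι) ℂ} (hσ : σ.PosDef) (hδ : 0 < δ) (u : Fin n)
    (hT : δ • H42.T u σ ≤ σ) (hΛ1 : log ((Fintype.card ι : ℝ) ^ 2) - log μ ≤ Λ)
    (hΛ2 : -log δ ≤ Λ) : ∃ L', (∀ a, Commute L' (H42.emb u a)) ∧
      -Λ • 1 ≤ H42.lg (tp n ω) - H42.lg σ - L' ∧ H42.lg (tp n ω) - H42.lg σ - L' ≤ Λ • 1 := by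
  have ωpd : ω.PosDef := H42.pd_of_le (PosDef.one.smul hμ) h1
  obtain ⟨b1, b2, b3⟩ := H42.lip (u := u) hσ hδ hT
  set M := H42.tens (Function.update (fun _ : Fin n => ω) u 1) with hM
  have Mpd : M.PosDef := H42.tens_pd fun i => by
    by_cases h : i = u <;> simp [h, ωpd, PosDef.one]
  have e : ∀ a, H42.emb u a * M = H42.tens (Function.update (fun _ : Fin n => ω) u a) :=
    fun a => by simp [hM, H42.emb_mul_tens]
  have nn : ∀ a, 0 ≤ a → 0 ≤ H42.emb u a * M := fun a ha => by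
    rw [e]
    exact H42.tens_nn fun i => by by_cases h : i = u <;> simp [h, ha, H42.pd_nn ωpd]
  have eW : H42.emb u ω * M = tp n ω := by rw [e, Function.update_eq_self]; rfl
  have c1 := nn _ (sub_nonneg.2 h1)
  have c2 := nn _ (sub_nonneg.2 h2)
  rw [map_sub, Matrix.sub_mul, eW, sub_nonneg] at c1 c2
  rw [H42.emb_rsmul, map_one, Matrix.smul_mul, Matrix.one_mul] at c1
  rw [map_one, Matrix.one_mul] at c2
  have d1 := H42.le_lg_sub Mpd hμ c1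
  have d2 := H42.lg_mono (tp_pd ωpd) c2
  refine ⟨H42.lg M - H42.lg (H42.T u σ), fun a => Commute.sub_left
    ((H42.tens_comm (by simp)).cfc_real _) (b1 a), ?_, ?_⟩
  · rw [sub_sub_sub_comm]
    refine le_trans ?_ (sub_le_sub d1 b3)
    rw [← sub_smul]
    exact H42.le_smul H42.one_nn (by linarith)
  · rw [sub_sub_sub_comm]
    refine (sub_le_sub (sub_nonpos.2 d2) b2).trans ?_
    rw [zero_sub, ← neg_smul]
    exact H42.le_smul H42.one_nn hΛ2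

omit [Nonempty ι] in
theorem lg_bd {σ : Matrix ι ι ℂ} (hσ : IsState σ) {m : ℝ} (hm : 0 < m) (h : m • 1 ≤ σ) :
    log m • (1 : Matrix ι ι ℂ) ≤ H42.lg σ ∧ H42.lg σ ≤ 0 := by
  have h1 := H42.le_lg_sub PosDef.one hm h
  have h2 := H42.lg_mono (H42.pd_of_le (PosDef.one.smul hm) h)
    (by simpa using state_le_one hσ.1 (c := 1) (by simp [hσ.2]) : σ ≤ 1)
  rw [H42.lg_one] at h1 h2
  exact ⟨by simpa using h1, h2⟩

theorem step {ω : Matrix ι ι ℂ} (hω : IsState ω) {μ δ m a b c M Λ r : ℝ} (hμ : 0 < μ)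
    (h1 : μ • 1 ≤ ω) {σ X Y : Matrix (Fin n → ι) (Fin n → ι) ℂ} (hσ : IsState σ) (hm : 0 < m)
    (h2 : m • 1 ≤ σ) (hδ : 0 < δ) (hT : ∀ u, δ • H42.T u σ ≤ σ)
    (h3 : ((X + Y) * (X + Y)ᴴ).trace = 1) (hc : 0 < c) (h4 : (X + Y) * (X + Y)ᴴ ≤ c • σ)
    (ha : 0 ≤ a) (h5 : X * Xᴴ ≤ a • tp n ω) (b0 : 0 < b) (b1 : b ≤ 1)
    (h6 : (Y * Yᴴ).trace.re ≤ b ^ 2) (M1 : -(n * log μ) ≤ M) (M2 : -log m ≤ M) (M0 : 0 ≤ M)
    (hΛ : 0 < Λ) (hΛ1 : log ((Fintype.card ι : ℝ) ^ 2) - log μ ≤ Λ) (hΛ2 : -log δ ≤ Λ)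
    (hr : 0 < r) : rel (tp n ω) σ ≤ log c + 44 * b * M + Λ * (n * r + log (a + 5) / r) := by
  have ωpd : ω.PosDef := H42.pd_of_le (PosDef.one.smul hμ) h1
  have σpd : σ.PosDef := H42.pd_of_le (PosDef.one.smul hm) h2
  have Wst := tp_state (n := n) hω
  have Wpd := tp_pd (n := n) ωpd
  have ω1 : ω ≤ 1 := by simpa using state_le_one hω.1 (c := 1) (by simp [hω.2])
  have W1 : μ ^ n • 1 ≤ tp n ω := by
    rw [← tp_one, ← tp_rsmul]
    exact tp_mono (psd_rsmul PosSemidef.one hμ.le) h1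
  obtain ⟨l1, l2⟩ := lg_bd Wst (pow_pos hμ n) W1
  obtain ⟨l3, l4⟩ := lg_bd hσ hm h2
  rw [log_pow] at l1
  set L := H42.lg (tp n ω) - H42.lg σ with hL
  have N0 : (M • 1 - L).PosSemidef := by
    refine le_iff.1 ((sub_le_sub l2 l3).trans ?_)
    rw [zero_sub, ← neg_smul]
    exact H42.le_smul H42.one_nn M2
  have N1 : ((2 * M) • 1 - (M • 1 - L)).PosSemidef := by
    have := (H42.le_smul (κ := Fin n → ι) H42.one_nn (neg_le.1 M1)).trans
      (l1.trans (le_sub_iff_add_le.2 (add_le_of_nonpos_right l4)))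
    rw [← hL, neg_smul, neg_le_iff_add_nonneg'] at this
    rw [two_mul, add_smul, add_sub_sub_cancel]
    exact this.posSemidef
  have Θst : IsState ((X + Y) * (X + Y)ᴴ) := ⟨posSemidef_self_mul_conjTranspose _, h3⟩
  have Xp := posSemidef_self_mul_conjTranspose X
  have Yp := posSemidef_self_mul_conjTranspose Y
  have k1 := two_cs H42.one_nn X Y b0
  have k2 := two_cs H42.one_nn (X + Y) (-Y) b0
  simp only [Matrix.mul_one, add_neg_cancel_right, conjTranspose_neg, neg_mul_neg] at k1 k2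
  have eb : (1 + b⁻¹) * b ^ 2 = b ^ 2 + b := by field_simp
  have ib : 0 < 1 + b⁻¹ := by positivity
  have k3 : (X * Xᴴ).trace.re ≤ 1 + 3 * b := by
    have := H42.tr_le k2
    rw [map_add, map_smul, map_smul, H42.tr_def, H42.tr_def, H42.tr_def, h3] at this
    simp only [smul_eq_mul, Complex.one_re] at this
    nlinarith [mul_le_mul_of_nonneg_left h6 ib.le]
  have x0 : 0 ≤ (X * Xᴴ).trace.re := H42.tr_nn Xp.nonneg
  obtain ⟨γ, hγ⟩ : ∃ γ, γ = 1 + 4 * b - (X * Xᴴ).trace.re := ⟨_, rfl⟩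
  have γ0 : 0 < γ := by linarith
  have z0 : 0 < 1 + 4 * b := by positivity
  have tpd := (PosDef.posSemidef_add Xp (Wpd.smul γ0)).smul (inv_pos.2 z0)
  have t1 : ((1 + 4 * b)⁻¹ • (X * Xᴴ + γ • tp n ω)).trace = 1 := by
    rw [trace_re tpd.posSemidef, Complex.ofReal_eq_one, trace_smul, trace_add, trace_smul, Wst.2,
      Complex.smul_re, Complex.add_re, Complex.smul_re, hγ]
    simp [z0.ne']
  have t2 : (1 + 4 * b)⁻¹ • (X * Xᴴ + γ • tp n ω) ≤ (a + 5) • tp n ω := by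
    refine (H42.le_smul (Xp.add (psd_rsmul Wst.1 γ0.le)).nonneg
      (inv_le_one_of_one_le₀ (by linarith))).trans ?_
    rw [one_smul, add_smul]
    exact add_le_add h5 (H42.le_smul Wst.1.nonneg (by linarith))
  have a2 := rel_le_log' Θst σpd hc h4
  have a3 := rel_nonneg Θst Wst Wpd
  have a4 := H42.marton (w := fun _ : Fin n => ω) (fun _ => ωpd) (fun _ => hω.2) tpd t1 (L := L)
    hΛ hr fun u => lip_tp hμ h1 ω1 σpd hδ u (hT u) hΛ1 hΛ2
  have a6 := rel_le_log' ⟨tpd.posSemidef, t1⟩ Wpd (by linarith) t2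
  have a8 := tr_sub ((1 + 4 * b)⁻¹ • (X * Xᴴ + γ • tp n ω)) (M • 1) L
  have a9 := tr_sub ((X + Y) * (X + Y)ᴴ) (M • 1) L
  rw [tr_smul, tr_one_state ⟨tpd.posSemidef, t1⟩, smul_tr, add_tr, smul_tr] at a8
  rw [tr_smul, tr_one_state Θst] at a9
  have a5 : tr ((X + Y) * (X + Y)ᴴ) L =
      rel ((X + Y) * (X + Y)ᴴ) σ - rel ((X + Y) * (X + Y)ᴴ) (tp n ω) := by
    simp only [rel, hL, H42.lg, tr_sub]
    ring
  have c1 := le_tr N0 (le_iff.1 k1)
  rw [add_tr, smul_tr, smul_tr] at c1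
  have c2 := tr_le_of_le Xp N1
  have c3 := tr_le_of_le Yp N1
  have c4 : 0 ≤ tr (tp n ω) (M • 1 - L) := tr_nonneg Wst.1 N0
  have c5 : 0 ≤ tr (X * Xᴴ) (M • 1 - L) := tr_nonneg Xp N0
  change tr (tp n ω) L - tr _ L ≤ Λ * (_ + rel _ (tp n ω) / r) at a4
  rw [Fintype.card_fin] at a4
  change tr (tp n ω) L ≤ _
  have a7 : Λ * (n * r + rel ((1 + 4 * b)⁻¹ • (X * Xᴴ + γ • tp n ω)) (tp n ω) / r) ≤
      Λ * (n * r + log (a + 5) / r) := by gcongr
  generalize tr (X * Xᴴ) (M • 1 - L) = x at *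
  generalize tr (Y * Yᴴ) (M • 1 - L) = y at *
  generalize tr (tp n ω) (M • 1 - L) = w at *
  have d1 : x ≤ 8 * M := by nlinarith
  have d2 : (1 + b⁻¹) * y ≤ 4 * b * M := by
    have : (1 + b⁻¹) * y ≤ (1 + b⁻¹) * (2 * M * b ^ 2) := by
      gcongr
      exact c3.trans (by gcongr)
    have e : (1 + b⁻¹) * (2 * M * b ^ 2) = 2 * M * (b ^ 2 + b) := by rw [← eb]; ring
    nlinarith [mul_nonneg M0 (mul_nonneg b0.le (sub_nonneg.2 b1))]
  have d3 : x - 4 * b * x ≤ (1 + 4 * b)⁻¹ * (x + γ * w) := by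
    rw [le_inv_mul_iff₀ z0]
    nlinarith [mul_nonneg γ0.le c4, mul_nonneg (sq_nonneg b) c5]
  nlinarith [mul_le_mul_of_nonneg_left d1 b0.le]

end Pool.Agent.MP_47bb2a_mp.H74
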